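import Pool.Agent.W919.EF.Main

set_option autoImplicit false

/-! Tuples of subgroups of `ℚ ^ n` of arbitrary rank. -/

namespace Pool.Agent.Y618.EF

open Pool.Agent.H418R3.EF Pool.Agent.W919.EF
open scoped Pointwise

/-- The Borel structure on the set of all subgroups of `ℚ ^ n`: it is generated by the sets
`{A | v ∈ A}`. -/
instance instMS (n : ℕ) : MeasurableSpace (AddSubgroup (V n)) :=
  MeasurableSpace.comap (fun A : AddSubgroup (V n) => fun v : V n => v ∈ A) MeasurableSpace.pi

/-- `ℚ ^ (ℕ)`, the sequences of rational numbers with finitely many non-zero terms -/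
abbrev W : Type := ℕ →₀ ℚ

/-- The Borel structure on the set of all subgroups of `ℚ ^ (ℕ)`: it is generated by the sets
`{A | v ∈ A}`. -/
instance instMSW : MeasurableSpace (AddSubgroup W) :=
  MeasurableSpace.comap (fun A : AddSubgroup W => fun v : W => v ∈ A) MeasurableSpace.pi

/-- `m`-tuples of subgroups of `ℚ ^ n`, of arbitrary ranks. -/
abbrev Tup (n m : ℕ) : Type := Fin m → AddSubgroup (V n)

/-- `g` carries `A` to a tuple quasi-equal to `B`: for some `k ≠ 0` we have `k g A_i ⊆ B_i` and
`k B_i ⊆ g A_i` for all `i`. -/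
def QE {n m : ℕ} (g : GQ n) (A B : Tup n m) : Prop :=
  ∃ k : ℤ, k ≠ 0 ∧ ∀ i, (∀ v ∈ A i, k • g v ∈ B i) ∧ ∀ v ∈ B i, k • g⁻¹ v ∈ A i

/-- Isomorphism of tuples. -/
def Iso {n m : ℕ} (A B : Tup n m) : Prop := ∃ g : GQ n, ∀ i, g • A i = B i

/-- Quasi-isomorphism of tuples. -/
def QIso {n m : ℕ} (A B : Tup n m) : Prop := ∃ g : GQ n, QE g A B

variable {n m : ℕ}

theorem QE_refl (A : Tup n m) : QE 1 A A :=
  ⟨1, one_ne_zero, fun i => ⟨fun v hv => by rw [one_smul]; exact hv, fun v hv => by
    rw [one_smul, inv_one]; exact hv⟩⟩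

theorem QE_symm {g : GQ n} {A B : Tup n m} (h : QE g A B) : QE g⁻¹ B A := by
  obtain ⟨k, hk, h⟩ := h
  refine ⟨k, hk, fun i => ⟨(h i).2, ?_⟩⟩
  rw [inv_inv]
  exact (h i).1

theorem QE_trans {g h : GQ n} {A B C : Tup n m} (h1 : QE g A B) (h2 : QE h B C) :
    QE (h * g) A C := by
  obtain ⟨k, hk, h1⟩ := h1
  obtain ⟨l, hl, h2⟩ := h2
  refine ⟨k * l, mul_ne_zero hk hl, fun i => ⟨fun v hv => ?_, fun v hv => ?_⟩⟩
  · have := (h2 i).1 _ ((h1 i).1 v hv)
    rw [map_zsmul, smul_smul, mul_comm] at this
    exact this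
  · have := (h1 i).2 _ ((h2 i).2 v hv)
    rw [map_zsmul, smul_smul] at this
    rw [mul_inv_rev]
    exact this

theorem QE_of_eq {g : GQ n} {A B : Tup n m} (h : ∀ i, g • A i = B i) : QE g A B := by
  refine ⟨1, one_ne_zero, fun i => ⟨fun v hv => ?_, fun v hv => ?_⟩⟩
  · rw [one_smul, ← h i]
    exact (apply_mem_gsmul _ _ _).2 hv
  · rw [← h i, mem_gsmul] at hv
    rw [one_smul]
    exact hv

/-! ### the space of all subgroups -/

/-- the defining map -/
def phi (n : ℕ) (A : AddSubgroup (V n)) : V n → Prop := fun v => v ∈ A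

theorem meas_mem (n : ℕ) (v : V n) : Measurable fun A : AddSubgroup (V n) => v ∈ A :=
  (measurable_pi_apply v).comp (comap_measurable (phi n))

theorem meas_of {Z : Type} [MeasurableSpace Z] (F : Z → AddSubgroup (V n))
    (h : ∀ v, Measurable fun z => v ∈ F z) : Measurable F := by
  have h1 : Measurable (phi n ∘ F) := by
    rw [measurable_pi_iff]
    exact h
  exact measurable_comap_iff.2 h1

theorem phi_inj (n : ℕ) : Function.Injective (phi n) := by
  intro A B h
  ext v
  exact iff_of_eq (congrFun h v)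

theorem range_phi (n : ℕ) : Set.range (phi n) = {s : V n → Prop | s 0 ∧
    (∀ a b, s a → s b → s (a + b)) ∧ (∀ a, s a → s (-a))} := by
  ext s
  constructor
  · rintro ⟨A, rfl⟩
    exact ⟨A.zero_mem, fun a b => A.add_mem, fun a => A.neg_mem⟩
  · rintro ⟨h1, h2, h3⟩
    exact ⟨{ carrier := {v | s v}
             zero_mem' := h1
             add_mem' := fun {a b} ha hb => h2 a b ha hb
             neg_mem' := fun {a} ha => h3 a ha }, rfl⟩

theorem meas_range (n : ℕ) : MeasurableSet (Set.range (phi n)) := by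
  rw [range_phi, measurableSet_setOfPred]
  have hm : ∀ v : V n, Measurable fun s : V n → Prop => s v := fun v => measurable_pi_apply v
  refine (hm 0).and (Measurable.and ?_ ?_)
  · exact Measurable.forall fun a => Measurable.forall fun b =>
      (hm a).imp ((hm b).imp (hm (a + b)))
  · exact Measurable.forall fun a => (hm a).imp (hm (-a))

theorem emb (n : ℕ) : MeasurableEmbedding (phi n) where
  injective := phi_inj n
  measurable := comap_measurable (phi n)
  measurableSet_image' := by
    rintro s ⟨t, ht, rfl⟩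
    show MeasurableSet (phi n '' (phi n ⁻¹' t))
    rw [Set.image_preimage_eq_inter_range]
    exact ht.inter (meas_range n)

instance standard (n : ℕ) : StandardBorelSpace (AddSubgroup (V n)) := by
  have := (meas_range n).standardBorel
  exact Pool.Agent.H861R3.EFStd.standardBorel_of_equiv (emb n).equivRange

theorem meas_smul (g : GQ n) : Measurable fun A : AddSubgroup (V n) => g • A := by
  refine meas_of _ fun v => ?_
  simp only [mem_gsmul]
  exact meas_mem n _

/-! ### measurability of the lattices -/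

section meas

variable {Z : Type} [MeasurableSpace Z] {F : Z → AddSubgroup (V n)}
  (hF : ∀ v, Measurable fun z => v ∈ F z)
include hF

theorem meas_loc (q : ℕ) (v : V n) : Measurable fun z => v ∈ loc q (F z) := by
  simp only [mem_loc]
  exact Measurable.exists fun b => measurable_const.and (hF _)

theorem meas_Dv (q k : ℕ) : Measurable fun z => Dv q k (F z) := by
  unfold Dv
  exact Measurable.forall fun x => (meas_loc hF q x).imp (Measurable.exists fun y =>
    (meas_loc hF q y).and measurable_const)

theorem meas_Nq {q : ℕ} (hq : q.Prime) (k : ℕ) : Measurable fun z => Nq q (F z) = k := by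
  have : (fun z => Nq q (F z) = k) = fun z => Dv q k (F z) ∧ ∀ j : ℕ, Dv q j (F z) → k ≤ j := by
    funext z
    apply propext
    constructor
    · rintro rfl
      exact ⟨Nq_spec hq _, fun j h => Nat.sInf_le h⟩
    · rintro ⟨h1, h2⟩
      exact le_antisymm (Nat.sInf_le h1) (h2 _ (Nq_spec hq _))
  rw [this]
  exact (meas_Dv hF q k).and (Measurable.forall fun j => (meas_Dv hF q j).imp measurable_const)

theorem meas_mem_Lam {q : ℕ} (hq : q.Prime) (v : V n) : Measurable fun z => v ∈ Lam q (F z) := by
  have : (fun z => v ∈ Lam q (F z)) =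
      fun z => v ∈ loc q (F z) ∧ ∃ k : ℕ, Nq q (F z) = k ∧ v ∈ Ball n q k := by
    funext z
    apply propext
    simp only [exists_eq_left']
    exact Iff.rfl
  rw [this]
  exact (meas_loc hF q v).and (Measurable.exists fun k => (meas_Nq hF hq k).and measurable_const)

theorem meas_LamY {q : ℕ} (hq : q.Prime) (Λ : Y n) : Measurable fun z => LamY hq (F z) = Λ := by
  have : (fun z => LamY hq (F z) = Λ) = fun z => ∀ v : V n, v ∈ Lam q (F z) ↔ v ∈ Λ.1 := by
    funext z
    apply propext
    constructor
    · rintro rfl v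
      exact Iff.rfl
    · intro h
      exact Subtype.ext (AddSubgroup.ext h)
  rw [this]
  exact Measurable.forall fun v => (meas_mem_Lam hF hq v).iff measurable_const

end meas

theorem Lam_congr {q : ℕ} {A B : AddSubgroup (V n)} (h : loc q A = loc q B) :
    Lam q A = Lam q B := by
  unfold Lam Nq Dv
  rw [h]

end Pool.Agent.Y618.EF
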