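import Pool.Agent.Y618.EF.Base

set_option autoImplicit false

/-! The cocycle on the tuples of groups with a given algebra of quasi-endomorphisms. -/

namespace Pool.Agent.Y618.EF

open Pool.Agent.H418R3.EF Pool.Agent.W919.EF
open scoped Pointwise

/-! ### an abstract construction -/

theorem hasCoc_abs {G Z H M : Type} [Group G] [MulAction G Z] [Countable G] [MeasurableSpace Z]
    (hact : ∀ g : G, Measurable (fun z : Z => g • z))
    (P : Set Z) [Group H] [Countable H]
    [AddCommGroup M] [Countable M] [DistribMulAction H M]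
    (c : Z → Z → H) (e : ℕ → Z → M) (ℓ : Z → ℕ)
    (ha : ∀ x ∈ P, ∀ y ∈ P, ∀ z ∈ P, (∃ g : G, g • x = y) → (∃ g : G, g • y = z) →
      c z x = c z y * c y x)
    (hc : ∀ x ∈ P, ∀ y ∈ P, (∃ g : G, g • x = y) → {q | e q y ≠ c y x • e q x}.Finite)
    (hd : ∀ x ∈ P, ∀ y ∈ P, (∃ g : G, g • x = y) → c y x = 1 → (∀ q, e q y = e q x) →
      ℓ y = ℓ x → x = y)
    (hm : ∀ (g : G) (h : H), MeasurableSet {x | x ∈ P ∧ g • x ∈ P ∧ c (g • x) x = h})
    (he : ∀ q c, MeasurableSet {x | x ∈ P ∧ e q x = c})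
    (hl : ∀ k, MeasurableSet {x | x ∈ P ∧ ℓ x = k}) : HasCoc G P := by
  refine ⟨SD H (ℕ →₀ M), inferInstance, inferInstance, fun y x => ⟨dif e y x (c y x), c y x⟩, ℓ,
    ?_, ?_, ?_, hl⟩
  · intro x hx y hy z hz hxy hyz
    have hxz : ∃ g : G, g • x = z := by
      obtain ⟨g, rfl⟩ := hxy
      obtain ⟨h, rfl⟩ := hyz
      exact ⟨h * g, mul_smul _ _ _⟩
    have f1 := hc x hx y hy hxy
    have f2 := hc y hy z hz hyz
    have f3 := hc x hx z hz hxz
    have hm := ha x hx y hy z hz hxy hyz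
    refine SD.ext' ?_ ?_
    · rw [SD.mul_f]
      simp only
      ext q
      rw [Finsupp.add_apply, Finsupp.smul_apply, dif_apply e _ _ _ f3, dif_apply e _ _ _ f1,
        dif_apply e _ _ _ f2, hm, mul_smul, smul_sub]
      abel
    · rw [SD.mul_h]
      exact hm
  · intro x hx y hy hxy h1 h2
    have h3 : c y x = 1 := congrArg SD.h h1
    have h4 : dif e y x (c y x) = 0 := congrArg SD.f h1
    refine hd x hx y hy hxy h3 (fun q => ?_) h2.symm
    have h5 := dif_apply e _ _ _ (hc x hx y hy hxy) q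
    rw [h4, h3, one_smul] at h5
    exact (sub_eq_zero.1 h5.symm)
  · intro g γ
    have hset : {x | x ∈ P ∧ g • x ∈ P ∧
          (⟨dif e (g • x) x (c (g • x) x), c (g • x) x⟩ : SD H (ℕ →₀ M)) = γ} =
        {x | x ∈ P ∧ g • x ∈ P ∧ c (g • x) x = γ.h} ∩ ⋂ q : ℕ, ⋃ a : M, {x | x ∈ P ∧ e q x = a} ∩
          (fun x => g • x) ⁻¹' {x | x ∈ P ∧ e q x = γ.f q + γ.h • a} := by
      ext x
      simp only [Set.mem_ofPred_eq, Set.mem_inter_iff, Set.mem_preimage, Set.mem_iInter,
        Set.mem_iUnion]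
      constructor
      · rintro ⟨hx, hgx, h1⟩
        have h3 : c (g • x) x = γ.h := congrArg SD.h h1
        have h4 : dif e (g • x) x (c (g • x) x) = γ.f := congrArg SD.f h1
        refine ⟨⟨hx, hgx, h3⟩, fun q => ⟨e q x, ⟨hx, rfl⟩, hgx, ?_⟩⟩
        have h5 := dif_apply e _ _ _ (hc x hx (g • x) hgx ⟨g, rfl⟩) q
        rw [h4, h3] at h5
        rw [h5]
        abel
      · rintro ⟨⟨hx, hgx, h3⟩, h4⟩
        refine ⟨hx, hgx, SD.ext' ?_ h3⟩
        simp only
        ext q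
        rw [dif_apply e _ _ _ (hc x hx (g • x) hgx ⟨g, rfl⟩) q]
        obtain ⟨a, ⟨_, h6⟩, _, h7⟩ := h4 q
        rw [h7, h6, h3]
        abel
    rw [hset]
    refine (hm g γ.h).inter ?_
    exact MeasurableSet.iInter fun q => MeasurableSet.iUnion fun a =>
      (he q a).inter (hact g (he q _))

/-! ### orbits -/

variable {n m : ℕ} (D : Subalgebra ℚ (Module.End ℚ (V n)))

/-- tuples of lattices together with a standard lattice -/
abbrev TY (n m : ℕ) : Type := (Fin m → Y n) × Y n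

/-- orbits of tuples of lattices -/
def ZT (m : ℕ) : Type := Quotient (MulAction.orbitRel (Un D) (TY n m))

instance : Countable (ZT D m) := inferInstanceAs (Countable (Quotient _))

/-- the class of a tuple of lattices -/
def clT (y : TY n m) : ZT D m := Quotient.mk (MulAction.orbitRel (Un D) (TY n m)) y

theorem clT_eq {y z : TY n m} : clT D y = clT D z ↔ ∃ u ∈ Un D, u • z = y := by
  change (Quotient.mk (MulAction.orbitRel (Un D) (TY n m)) y :
    Quotient (MulAction.orbitRel (Un D) (TY n m))) = Quotient.mk _ z ↔ _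
  rw [Quotient.eq]
  change y ∈ MulAction.orbit (Un D) z ↔ _
  rw [MulAction.mem_orbit_iff]
  constructor
  · rintro ⟨u, hu⟩
    exact ⟨u, u.2, hu⟩
  · rintro ⟨u, hu, h⟩
    exact ⟨⟨u, hu⟩, h⟩

instance : MulAction (Nn D) (ZT D m) where
  smul g := Quotient.map (fun y => (g : GQ n) • y) (by
    intro y z hyz
    have h1 : clT D y = clT D z := Quotient.sound hyz
    obtain ⟨u, hu, rfl⟩ := (clT_eq D).1 h1
    have h2 : clT D ((g : GQ n) • u • z) = clT D ((g : GQ n) • z) := by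
      rw [clT_eq]
      refine ⟨(g : GQ n) * u * (g : GQ n)⁻¹, conj_mem_Un D g.2 hu, ?_⟩
      rw [mul_smul, mul_smul, inv_smul_smul]
    exact Quotient.exact h2)
  one_smul := by
    intro z
    induction z using Quotient.inductionOn with
    | h y =>
      change clT D ((1 : GQ n) • y) = clT D y
      rw [one_smul]
  mul_smul := by
    intro g h z
    induction z using Quotient.inductionOn with
    | h y =>
      change clT D (((g : GQ n) * (h : GQ n)) • y) = clT D ((g : GQ n) • (h : GQ n) • y)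
      rw [mul_smul]

/-- the action of the quotient group -/
def permT (m : ℕ) : Hn D →* Equiv.Perm (ZT D m) :=
  QuotientGroup.lift _ (MulAction.toPermHom (Nn D) (ZT D m)) (by
    intro u hu
    rw [Subgroup.mem_subgroupOf] at hu
    ext z
    induction z using Quotient.inductionOn with
    | h y =>
      change clT D ((u : GQ n) • y) = clT D y
      rw [clT_eq]
      exact ⟨u, hu, rfl⟩)

instance : MulAction (Hn D) (ZT D m) := MulAction.compHom (ZT D m) (permT D m)

/-- the class of `g` -/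
def mkH (g : Nn D) : Hn D := QuotientGroup.mk' ((Un D).subgroupOf (Nn D)) g

theorem mkH_mul (g h : Nn D) : mkH D (g * h) = mkH D g * mkH D h := map_mul _ _ _

theorem mkH_eq_one {g : Nn D} : mkH D g = 1 ↔ (g : GQ n) ∈ Un D := by
  unfold mkH
  rw [QuotientGroup.mk'_apply, QuotientGroup.eq_one_iff, Subgroup.mem_subgroupOf]

theorem mkH_smul_clT (g : Nn D) (y : TY n m) :
    mkH D g • clT D y = clT D ((g : GQ n) • y) := rfl

/-- the module -/
abbrev MT (m : ℕ) : Type := ZT D m →₀ ZMod 2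

attribute [local instance] Finsupp.comapSMul Finsupp.comapMulAction Finsupp.comapDistribMulAction

noncomputable instance instActT : DistribMulAction (Hn D) (MT D m) :=
  Finsupp.comapDistribMulAction

/-- the tuple of lattices of `A` at `q` -/
noncomputable def prT {q : ℕ} (hq : q.Prime) (A : Tup n m) : TY n m :=
  (fun i => LamY hq (A i), StdY n q)

open Classical in
/-- the label of `A` at `q` -/
noncomputable def labT (m0 q : ℕ) (A : Tup n m) : MT D m :=
  if h : q.Prime ∧ ¬ q ∣ m0 then Finsupp.single (clT D (prT h.1 A)) 1 else 0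

/-- tuples with algebra `D` of quasi-endomorphisms, such that `m0` times the integral matrices in
`D` are endomorphisms -/
def PT' (m m0 : ℕ) : Set (Tup n m) :=
  {A | (∀ f : Module.End ℚ (V n), f ∈ D ↔ ∃ k : ℤ, k ≠ 0 ∧ ∀ i, ∀ v ∈ A i, k • f v ∈ A i) ∧
    ∀ f : Module.End ℚ (V n), f ∈ D → (∀ v ∈ Std n, f v ∈ Std n) →
      ∀ i, ∀ v ∈ A i, (m0 : ℤ) • f v ∈ A i}

theorem goodT_aux {m0 q : ℕ} (hq : q.Prime) (hqm : ¬ q ∣ m0) {A : AddSubgroup (V n)}
    (hA : ∀ f : Module.End ℚ (V n), f ∈ D → (∀ v ∈ Std n, f v ∈ Std n) →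
      ∀ v ∈ A, (m0 : ℤ) • f v ∈ A)
    {u : GQ n} (hu : lin u ∈ D) (hK : u ∈ Kq n q) (v : V n) (hv : v ∈ loc q A) :
    u v ∈ loc q A := by
  have h1 : ∀ i : Fin n, ∃ b : ℤ, IsCoprime b (q : ℤ) ∧ b • u (Pi.single i 1) ∈ Std n := by
    intro i
    have h2 : (Pi.single i 1 : V n) ∈ loc q (Std n) := by
      refine le_loc _ _ fun j => ?_
      by_cases hij : j = i
      · subst hij; exact ⟨1, by simp⟩
      · exact ⟨0, by simp [hij]⟩
    have h3 : u (Pi.single i 1) ∈ u • loc q (Std n) := (apply_mem_gsmul _ _ _).2 h2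
    rw [mem_Kq.1 hK] at h3
    exact h3
  choose b hb hb2 using h1
  have hcop : IsCoprime (∏ i, b i) (q : ℤ) := IsCoprime.prod_left fun i _ => hb i
  have h4 := hA ((∏ i, b i : ℤ) • lin u) (zsmul_mem hu _) (by
    intro w hw
    choose z hz using hw
    have e1 : w = ∑ i, z i • (Pi.single i (1 : ℚ) : V n) := by
      funext l
      simp [Finset.sum_apply, Pi.single_apply, hz]
    rw [LinearMap.smul_apply]
    change (∏ i, b i : ℤ) • u w ∈ Std n
    rw [e1, map_sum, Finset.smul_sum]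
    refine AddSubgroup.sum_mem _ fun i _ => ?_
    rw [map_zsmul, smul_comm, ← Finset.mul_prod_erase Finset.univ b (Finset.mem_univ i), mul_comm,
      mul_smul]
    exact AddSubgroup.zsmul_mem _ (AddSubgroup.zsmul_mem _ (hb2 i) _) _)
  obtain ⟨c, hc, hcv⟩ := hv
  have h5 := h4 _ hcv
  have hmq : IsCoprime (m0 : ℤ) (q : ℤ) :=
    Nat.isCoprime_iff_coprime.2 ((Nat.Prime.coprime_iff_not_dvd hq).2 hqm).symm
  refine ⟨m0 * ((∏ i, b i) * c), hmq.mul_left (hcop.mul_left hc), ?_⟩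
  have e2 : ((m0 : ℤ) * ((∏ i, b i) * c)) • u v = (m0 : ℤ) • ((∏ i, b i : ℤ) • lin u) (c • v) := by
    rw [LinearMap.smul_apply, map_zsmul, mul_smul, mul_smul]
    rfl
  rw [e2]
  exact h5

theorem goodT {m0 q : ℕ} (hq : q.Prime) (hqm : ¬ q ∣ m0) {A : Tup n m} (hA : A ∈ PT' D m m0)
    {u : GQ n} (hu : u ∈ Un D) (hK : u ∈ Kq n q) (i : Fin m) :
    u • Lam q (A i) = Lam q (A i) := by
  have hA' : ∀ f : Module.End ℚ (V n), f ∈ D → (∀ v ∈ Std n, f v ∈ Std n) →
      ∀ v ∈ A i, (m0 : ℤ) • f v ∈ A i := fun f hf hs => hA.2 f hf hs i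
  have h1 : ∀ v, u⁻¹ v ∈ loc q (A i) ↔ v ∈ loc q (A i) := by
    intro v
    constructor
    · intro h
      have := goodT_aux D hq hqm hA' hu.1 hK _ h
      rwa [apply_inv] at this
    · intro h
      exact goodT_aux D hq hqm hA' hu.2 ((Kq n q).inv_mem hK) _ h
  ext v
  rw [mem_gsmul]
  unfold Lam
  rw [AddSubgroup.mem_inf, AddSubgroup.mem_inf, h1, ← Kq_Ball hK (Nq q (A i)) (u⁻¹ v), apply_inv]

theorem mem_Nn_of_QE {m0 m1 : ℕ} {A B : Tup n m} (hA : A ∈ PT' D m m0) (hB : B ∈ PT' D m m1)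
    {g : GQ n} (hg : QE g A B) : g ∈ Nn D := by
  obtain ⟨K, hK, hg⟩ := hg
  intro f
  rw [hA.1 f, hB.1]
  constructor
  · rintro ⟨k, hk, h⟩
    refine ⟨K * (k * K), mul_ne_zero hK (mul_ne_zero hk hK), fun i v hv => ?_⟩
    have h1 := (hg i).1 _ (h i _ ((hg i).2 v hv))
    have : (K * (k * K)) • (lin g * f * lin g⁻¹) v = K • g (k • f (K • g⁻¹ v)) := by
      rw [map_zsmul, map_zsmul, map_zsmul, mul_smul, mul_smul]
      rfl
    rw [this]
    exact h1
  · rintro ⟨k, hk, h⟩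
    refine ⟨K * (k * K), mul_ne_zero hK (mul_ne_zero hk hK), fun i v hv => ?_⟩
    have h1 := (hg i).2 _ (h i _ ((hg i).1 v hv))
    have : (K * (k * K)) • f v = K • g⁻¹ (k • (lin g * f * lin g⁻¹) (K • g v)) := by
      rw [map_zsmul, map_zsmul, map_zsmul, mul_smul, mul_smul]
      change K • k • K • f v = K • k • K • g⁻¹ (g (f (g⁻¹ (g v))))
      rw [inv_apply, inv_apply]
    rw [this]
    exact h1

theorem mem_Un_of_QE {m0 : ℕ} {A : Tup n m} (hA : A ∈ PT' D m m0) {g : GQ n} (hg : QE g A A) :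
    g ∈ Un D := by
  obtain ⟨K, hK, hg⟩ := hg
  exact ⟨(hA.1 _).2 ⟨K, hK, fun i v hv => (hg i).1 v hv⟩,
    (hA.1 _).2 ⟨K, hK, fun i v hv => (hg i).2 v hv⟩⟩

open Classical in
/-- the class of the elements carrying `x` to a tuple quasi-equal to `y` -/
noncomputable def cT (y x : Tup n m) : Hn D :=
  if h : ∃ g : Nn D, QE (g : GQ n) x y then mkH D h.choose else 1

theorem cT_eq {m0 : ℕ} {x y : Tup n m} (hx : x ∈ PT' D m m0) (g : Nn D)
    (hg : QE (g : GQ n) x y) : cT D y x = mkH D g := by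
  have h : ∃ g : Nn D, QE (g : GQ n) x y := ⟨g, hg⟩
  have h1 : QE ((g⁻¹ * h.choose : Nn D) : GQ n) x x := by
    have := QE_trans h.choose_spec (QE_symm hg)
    exact this
  have h2 := (mkH_eq_one D).2 (mem_Un_of_QE D hx h1)
  unfold cT
  rw [dif_pos h]
  rw [mkH_mul] at h2
  have h3 : mkH D g⁻¹ = (mkH D g)⁻¹ := map_inv _ _
  rw [h3, inv_mul_eq_one] at h2
  exact h2.symm

theorem loc_eq_of_smul {q : ℕ} {A B : AddSubgroup (V n)} {k : ℤ} (hk : IsCoprime k (q : ℤ))
    (h1 : ∀ v ∈ A, k • v ∈ B) (h2 : ∀ v ∈ B, k • v ∈ A) : loc q A = loc q B := by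
  have key : ∀ A B : AddSubgroup (V n), (∀ v ∈ A, k • v ∈ B) → loc q A ≤ loc q B := by
    rintro A B h v ⟨b, hb, hv⟩
    refine ⟨k * b, hk.mul_left hb, ?_⟩
    rw [mul_smul]
    exact h _ hv
  exact le_antisymm (key _ _ h1) (key _ _ h2)

theorem lab_finite {m0 : ℕ} {x y : Tup n m} (g : Nn D) (hg : QE (g : GQ n) x y) :
    {q | labT D m0 q y ≠ mkH D g • labT D m0 q x}.Finite := by
  obtain ⟨k, hk, hg⟩ := hg
  obtain ⟨E, hE, hEK⟩ := exists_Kq (g : GQ n)
  refine Set.Finite.subset ((E * k.natAbs).primeFactors.finite_toSet) fun q hq => ?_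
  by_contra hqE
  apply hq
  unfold labT
  by_cases h : q.Prime ∧ ¬ q ∣ m0
  · rw [dif_pos h, dif_pos h]
    have hne : E * k.natAbs ≠ 0 := mul_ne_zero hE.ne' (Int.natAbs_ne_zero.2 hk)
    have hnd : ¬ q ∣ E * k.natAbs := fun hd => hqE (Nat.mem_primeFactors.2 ⟨h.1, hd, hne⟩)
    have hK : (g : GQ n) ∈ Kq n q := by
      refine hEK q (Nat.isCoprime_iff_coprime.2
        ((Nat.Prime.coprime_iff_not_dvd h.1).2 fun hd => hnd (hd.mul_right _)).symm)
    have hkq : IsCoprime k (q : ℤ) := by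
      have h1 : IsCoprime ((k.natAbs : ℕ) : ℤ) (q : ℤ) := Nat.isCoprime_iff_coprime.2
        ((Nat.Prime.coprime_iff_not_dvd h.1).2 fun hd => hnd (hd.mul_left _)).symm
      rw [Int.isCoprime_iff_gcd_eq_one] at h1 ⊢
      rwa [Int.gcd, Int.natAbs_natCast] at h1
    rw [Finsupp.comapSMul_single, mkH_smul_clT]
    congr 2
    refine Prod.ext ?_ ?_
    · funext i
      refine Subtype.ext ?_
      change Lam q (y i) = (g : GQ n) • Lam q (x i)
      rw [← Lam_smul hK]
      apply Lam_congr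
      refine (loc_eq_of_smul hkq ?_ ?_).symm
      · intro v hv
        rw [mem_gsmul] at hv
        have := (hg i).1 _ hv
        rwa [apply_inv] at this
      · intro v hv
        rw [mem_gsmul, map_zsmul]
        exact (hg i).2 v hv
    · exact Subtype.ext (mem_Kq.1 hK).symm
  · rw [dif_neg h, dif_neg h, smul_zero]

theorem eq_of_labels {m0 : ℕ} {x y : Tup n m} (hx : x ∈ PT' D m m0) {g : GQ n} (hU : g ∈ Un D)
    (hg : QE g x y) (h2 : ∀ q, labT D m0 q y = labT D m0 q x)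
    (h3 : ∀ q : ℕ, q.Prime → q ∣ m0 → ∀ i, Lam q (y i) = Lam q (x i)) : x = y := by
  have hLam : ∀ q : ℕ, q.Prime → ∀ i, Lam q (y i) = Lam q (x i) := by
    intro q hq i
    by_cases hqm : q ∣ m0
    · exact h3 q hq hqm i
    · have h4 := h2 q
      unfold labT at h4
      rw [dif_pos ⟨hq, hqm⟩, dif_pos ⟨hq, hqm⟩] at h4
      have h5 := single_inj h4
      obtain ⟨u, hu, h6⟩ := (clT_eq D).1 h5
      have h7 : u • LamY hq (x i) = LamY hq (y i) := congrFun (congrArg Prod.fst h6) i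
      have h8 : u • StdY n q = StdY n q := congrArg Prod.snd h6
      have hK : u ∈ Kq n q := mem_Kq.2 (congrArg Subtype.val h8)
      have h9 : u • Lam q (x i) = Lam q (y i) := congrArg Subtype.val h7
      rw [← h9]
      exact goodT D hq hqm hx hu hK i
  obtain ⟨K, hK, hg⟩ := hg
  obtain ⟨k, hk, hk2⟩ := (hx.1 _).1 hU.1
  obtain ⟨l, hl, hl2⟩ := (hx.1 _).1 hU.2
  have e1 : ∀ i, ∀ v ∈ y i, (k * K) • v ∈ x i := by
    intro i v hv
    have := hk2 i _ ((hg i).2 v hv)
    change k • g (K • g⁻¹ v) ∈ x i at this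
    rw [map_zsmul, apply_inv, smul_smul] at this
    exact this
  have e2 : ∀ i, ∀ v ∈ x i, (K * l) • v ∈ y i := by
    intro i v hv
    have := (hg i).1 _ (hl2 i v hv)
    change K • g (l • g⁻¹ v) ∈ y i at this
    rw [map_zsmul, apply_inv, smul_smul] at this
    exact this
  have hkK : k * K ≠ 0 := mul_ne_zero hk hK
  have hKl : K * l ≠ 0 := mul_ne_zero hK hl
  have hloc : ∀ q : ℕ, q.Prime → ∀ i, loc q (y i) = loc q (x i) := fun q hq i =>
    loc_eq_of_Lam hq (hLam q hq i) hkK (e1 i) hKl (e2 i)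
  funext i
  refine le_antisymm ?_ ?_
  · intro v hv
    refine mem_of_forall_loc v (fun q hq => ?_) ⟨K * l, hKl, e2 i v hv⟩
    rw [hloc q hq i]
    exact le_loc _ _ hv
  · intro v hv
    refine mem_of_forall_loc v (fun q hq => ?_) ⟨k * K, hkK, e1 i v hv⟩
    rw [← hloc q hq i]
    exact le_loc _ _ hv

theorem hasCoc_PT {Z K : Type} [Group K] [Countable K] [MulAction K Z] [MeasurableSpace Z]
    (hact : ∀ k : K, Measurable (fun z : Z => k • z)) (f : Z → Tup n m) (hf : Measurable f)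
    (c : Z → ℕ) (hc : Measurable c) (Q : Set Z) (hQ : MeasurableSet Q)
    (h1 : ∀ (k : K) (z : Z), z ∈ Q → k • z ∈ Q → QIso (f z) (f (k • z)))
    (h2 : ∀ (k : K) (z : Z), z ∈ Q → k • z ∈ Q → f (k • z) = f z → c (k • z) = c z → k • z = z)
    (m0 : ℕ) (hm0 : m0 ≠ 0) : HasCoc K (Q ∩ f ⁻¹' PT' D m m0) := by
  classical
  have hcG : Countable (GQ n) := (Pool.Agent.H861R3.EFStd.t n).1
  have hmem : ∀ i, ∀ v, Measurable fun z => v ∈ f z i := fun i v =>
    (meas_mem n v).comp ((measurable_pi_apply i).comp hf)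
  have hPm : MeasurableSet (Q ∩ f ⁻¹' PT' D m m0) := by
    refine hQ.inter ?_
    have : f ⁻¹' PT' D m m0 = {z | (∀ φ : Module.End ℚ (V n), φ ∈ D ↔
        ∃ k : ℤ, k ≠ 0 ∧ ∀ i, ∀ v, v ∈ f z i → k • φ v ∈ f z i) ∧
        ∀ φ : Module.End ℚ (V n), φ ∈ D → (∀ v ∈ Std n, φ v ∈ Std n) →
          ∀ i, ∀ v, v ∈ f z i → (m0 : ℤ) • φ v ∈ f z i} := rfl
    rw [this, measurableSet_setOfPred]
    refine Measurable.and ?_ ?_
    · exact Measurable.forall fun φ => measurable_const.iff (Measurable.exists fun k =>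
        measurable_const.and (Measurable.forall fun i => Measurable.forall fun v =>
          (hmem i v).imp (hmem i _)))
    · exact Measurable.forall fun φ => measurable_const.imp (measurable_const.imp
        (Measurable.forall fun i => Measurable.forall fun v => (hmem i v).imp (hmem i _)))
  have hcN : Countable (Hn D) := Quotient.countable
  obtain ⟨code, hcode⟩ := exists_injective_nat (m0.primeFactors → Fin m → Y n)
  let ℓ : Z → ℕ := fun z => Nat.pair
    (code (fun q i => LamY (Nat.prime_of_mem_primeFactors q.2) (f z i))) (c z)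
  have hN : ∀ x ∈ Q ∩ f ⁻¹' PT' D m m0, ∀ y ∈ Q ∩ f ⁻¹' PT' D m m0, (∃ k : K, k • x = y) →
      ∃ g : Nn D, QE (g : GQ n) (f x) (f y) := by
    rintro x hx y hy ⟨k, rfl⟩
    obtain ⟨g, hg⟩ := h1 k x hx.1 hy.1
    exact ⟨⟨g, mem_Nn_of_QE D hx.2 hy.2 hg⟩, hg⟩
  refine hasCoc_abs (H := Hn D) (M := MT D m) hact (Q ∩ f ⁻¹' PT' D m m0)
    (fun y x => cT D (f y) (f x)) (fun q z => labT D m0 q (f z)) ℓ ?_ ?_ ?_ ?_ ?_ ?_
  · intro x hx y hy z hz hxy hyz
    obtain ⟨g, hg⟩ := hN x hx y hy hxy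
    obtain ⟨h, hh⟩ := hN y hy z hz hyz
    have hgh : QE ((h * g : Nn D) : GQ n) (f x) (f z) := QE_trans hg hh
    rw [cT_eq D hx.2 g hg, cT_eq D hy.2 h hh, cT_eq D hx.2 (h * g) hgh, mkH_mul]
  · intro x hx y hy hxy
    obtain ⟨g, hg⟩ := hN x hx y hy hxy
    rw [cT_eq D hx.2 g hg]
    exact lab_finite D g hg
  · intro x hx y hy hxy h4 h5 h6
    obtain ⟨g, hg⟩ := hN x hx y hy hxy
    rw [cT_eq D hx.2 g hg, mkH_eq_one] at h4
    obtain ⟨h7, h8⟩ := Nat.pair_eq_pair.1 h6
    have h9 := hcode h7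
    have h10 : f x = f y := by
      refine eq_of_labels D hx.2 h4 hg h5 ?_
      intro q hq hqm i
      have h11 := congrFun (congrFun h9 ⟨q, Nat.mem_primeFactors.2 ⟨hq, hqm, hm0⟩⟩) i
      exact congrArg Subtype.val h11
    obtain ⟨k, rfl⟩ := hxy
    exact (h2 k x hx.1 hy.1 h10.symm h8).symm
  · intro k h
    have : {x | x ∈ Q ∩ f ⁻¹' PT' D m m0 ∧ k • x ∈ Q ∩ f ⁻¹' PT' D m m0 ∧ cT D (f (k • x)) (f x) = h} =
        ((Q ∩ f ⁻¹' PT' D m m0) ∩ (fun x => k • x) ⁻¹' (Q ∩ f ⁻¹' PT' D m m0)) ∩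
          {x | ∃ g : Nn D, mkH D g = h ∧ ∃ K : ℤ, K ≠ 0 ∧ ∀ i,
            (∀ v, v ∈ f x i → K • (g : GQ n) v ∈ f (k • x) i) ∧
            ∀ v, v ∈ f (k • x) i → K • (g : GQ n)⁻¹ v ∈ f x i} := by
      ext x
      constructor
      · rintro ⟨hx, hy, h3⟩
        obtain ⟨g, hg⟩ := hN x hx _ hy ⟨k, rfl⟩
        refine ⟨⟨hx, hy⟩, g, ?_, hg⟩
        rw [← h3, cT_eq D hx.2 g hg]
      · rintro ⟨⟨hx, hy⟩, g, hgh, hg⟩
        refine ⟨hx, hy, ?_⟩
        rw [cT_eq D hx.2 g hg, hgh]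
    rw [this]
    refine (hPm.inter (hact k hPm)).inter ?_
    rw [measurableSet_setOfPred]
    refine Measurable.exists fun g => measurable_const.and (Measurable.exists fun K =>
      measurable_const.and (Measurable.forall fun i => Measurable.and ?_ ?_))
    · exact Measurable.forall fun v => (hmem i v).imp ((hmem i _).comp (hact k))
    · exact Measurable.forall fun v => ((hmem i v).comp (hact k)).imp (hmem i _)
  · intro q a
    by_cases h : q.Prime ∧ ¬ q ∣ m0
    · have : {x | x ∈ Q ∩ f ⁻¹' PT' D m m0 ∧ labT D m0 q (f x) = a} = (Q ∩ f ⁻¹' PT' D m m0) ∩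
          {x | ∃ Λ : Fin m → Y n, (∀ i, LamY h.1 (f x i) = Λ i) ∧
            Finsupp.single (clT D (Λ, StdY n q)) 1 = a} := by
        ext x
        refine and_congr_right fun _ => ?_
        change _ ↔ ∃ Λ : Fin m → Y n, (∀ i, LamY h.1 (f x i) = Λ i) ∧
            Finsupp.single (clT D (Λ, StdY n q)) 1 = a
        unfold labT
        rw [dif_pos h]
        constructor
        · intro h4
          exact ⟨fun i => LamY h.1 (f x i), fun _ => rfl, h4⟩
        · rintro ⟨Λ, h4, h5⟩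
          rw [← h5]
          have : Λ = fun i => LamY h.1 (f x i) := funext fun i => (h4 i).symm
          rw [this]
          rfl
      rw [this]
      refine hPm.inter ?_
      rw [measurableSet_setOfPred]
      exact Measurable.exists fun Λ => (Measurable.forall fun i =>
        meas_LamY (hmem i) h.1 (Λ i)).and measurable_const
    · have : {x | x ∈ Q ∩ f ⁻¹' PT' D m m0 ∧ labT D m0 q (f x) = a} = (Q ∩ f ⁻¹' PT' D m m0) ∩
          {_x | (0 : MT D m) = a} := by
        ext x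
        refine and_congr_right fun _ => ?_
        unfold labT
        rw [dif_neg h]
        exact Iff.rfl
      rw [this]
      exact hPm.inter (MeasurableSet.const _)
  · intro k
    have : {x | x ∈ Q ∩ f ⁻¹' PT' D m m0 ∧ ℓ x = k} = (Q ∩ f ⁻¹' PT' D m m0) ∩
        {x | ∃ (F : m0.primeFactors → Fin m → Y n) (j : ℕ), Nat.pair (code F) j = k ∧ c x = j ∧
          ∀ q i, LamY (Nat.prime_of_mem_primeFactors q.2) (f x i) = F q i} := by
      ext x
      refine and_congr_right fun _ => ?_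
      constructor
      · intro h
        exact ⟨_, _, h, rfl, fun q i => rfl⟩
      · rintro ⟨F, j, h, h4, h5⟩
        rw [← h, ← h4]
        have : F = fun q i => LamY (Nat.prime_of_mem_primeFactors q.2) (f x i) := by
          funext q i
          exact (h5 q i).symm
        rw [this]
    rw [this]
    refine hPm.inter ?_
    rw [measurableSet_setOfPred]
    exact Measurable.exists fun F => Measurable.exists fun j => measurable_const.and
      ((measurableSet_setOfPred.1 (hc (measurableSet_singleton j))).and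
      (Measurable.forall fun q => Measurable.forall fun i => meas_LamY (hmem i) _ _))

end Pool.Agent.Y618.EF
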