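import Pool.Agent.Y618.EF.Base

set_option autoImplicit false

/-! Countably many Borel maps enumerate the quasi-isomorphism classes of tuples. -/

namespace Pool.Agent.Y618.EF

open Pool.Agent.H418R3.EF Pool.Agent.W919.EF
open scoped Pointwise

variable {n m : ℕ}

theorem fin_prime {q : ℕ} (hq : q.Prime) (B : AddSubgroup (V n)) :
    ∃ S : Finset (V n), (∀ v ∈ S, v ∈ B) ∧
      ∀ v ∈ B, ∃ a ∈ B, ∃ w ∈ AddSubgroup.closure (S : Set (V n)), v = (q : ℤ) • a + w := by
  obtain ⟨k, hk⟩ := exists_Dv hq B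
  obtain ⟨S, hS⟩ := exists_closure k hq.ne_zero B
  refine ⟨S, fun v hv => ((hS v).1 (AddSubgroup.subset_closure hv)).1, fun v hv => ?_⟩
  obtain ⟨y, ⟨b, hb, hby⟩, h1⟩ := hk v (le_loc q B hv)
  obtain ⟨c, hc, h2⟩ := h1
  -- `b c (v - q y)` lies in the closure of `S`
  have h3 : (b * c) • (v - (q : ℤ) • y) ∈ AddSubgroup.closure (S : Set (V n)) := by
    rw [hS]
    refine ⟨?_, ?_⟩
    · rw [smul_sub]
      refine B.sub_mem (B.zsmul_mem hv _) ?_
      have : (b * c) • (q : ℤ) • y = (c * q) • b • y := by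
        rw [smul_smul, smul_smul]; congr 1; ring
      rw [this]
      exact B.zsmul_mem hby _
    · have : ((q : ℤ) ^ k) • (b * c) • (v - (q : ℤ) • y) =
          b • c • ((q : ℤ) ^ k) • (v - (q : ℤ) • y) := by
        rw [smul_smul, smul_smul, smul_smul]; congr 1; ring
      rw [this]
      exact AddSubgroup.zsmul_mem _ h2 _
  obtain ⟨s, t, hst⟩ := hb.mul_left hc
  refine ⟨s • c • b • y + t • v, B.add_mem (B.zsmul_mem (B.zsmul_mem hby _) _)
    (B.zsmul_mem hv _), s • (b * c) • (v - (q : ℤ) • y), AddSubgroup.zsmul_mem _ h3 _, ?_⟩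
  have e1 : v = (s * (b * c) + t * q) • v := by rw [hst, one_smul]
  nth_rw 1 [e1]
  simp only [smul_add, smul_sub, add_smul, smul_smul]
  have e2 : (q : ℤ) * (s * (c * b)) = s * (b * c * q) := by ring
  have e3 : (q : ℤ) * t = t * q := by ring
  simp only [e2, e3]
  abel

theorem fin_any (N : ℕ) (hN : N ≠ 0) (B : AddSubgroup (V n)) :
    ∃ S : Finset (V n), (∀ v ∈ S, v ∈ B) ∧
      ∀ v ∈ B, ∃ a ∈ B, ∃ w ∈ AddSubgroup.closure (S : Set (V n)), v = (N : ℤ) • a + w := by
  classical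
  induction N using induction_on_primes with
  | zero => exact absurd rfl hN
  | one =>
    exact ⟨∅, fun v hv => absurd hv (Finset.notMem_empty v), fun v hv =>
      ⟨v, hv, 0, AddSubgroup.zero_mem _, by simp⟩⟩
  | prime_mul q a hq ih =>
    have ha : a ≠ 0 := fun h => hN (by rw [h, mul_zero])
    obtain ⟨S, hS, h1⟩ := ih ha
    obtain ⟨T, hT, h2⟩ := fin_prime hq B
    refine ⟨S ∪ T, fun v hv => ?_, fun v hv => ?_⟩
    · rcases Finset.mem_union.1 hv with h | h
      · exact hS v h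
      · exact hT v h
    · obtain ⟨x, hx, w, hw, rfl⟩ := h1 v hv
      obtain ⟨y, hy, u, hu, rfl⟩ := h2 x hx
      refine ⟨y, hy, (a : ℤ) • u + w, AddSubgroup.add_mem _ (AddSubgroup.zsmul_mem _ ?_ _) ?_, ?_⟩
      · exact AddSubgroup.closure_mono (by simp) hu
      · exact AddSubgroup.closure_mono (by simp) hw
      · push_cast
        rw [smul_add, smul_smul, mul_comm (q : ℤ), add_assoc]

/-- `k B + ⟨S⟩` -/
def mo (k : ℤ) (S : Finset (V n)) (B : AddSubgroup (V n)) : AddSubgroup (V n) where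
  carrier := {v | ∃ b ∈ B, ∃ w ∈ AddSubgroup.closure (S : Set (V n)), v = k • b + w}
  zero_mem' := ⟨0, B.zero_mem, 0, AddSubgroup.zero_mem _, by simp⟩
  add_mem' := by
    rintro _ _ ⟨b, hb, w, hw, rfl⟩ ⟨b', hb', w', hw', rfl⟩
    exact ⟨b + b', B.add_mem hb hb', w + w', AddSubgroup.add_mem _ hw hw', by
      rw [smul_add]; abel⟩
  neg_mem' := by
    rintro _ ⟨b, hb, w, hw, rfl⟩
    exact ⟨-b, B.neg_mem hb, -w, AddSubgroup.neg_mem _ hw, by rw [smul_neg]; abel⟩

theorem mem_mo {k : ℤ} {S : Finset (V n)} {B : AddSubgroup (V n)} {v : V n} :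
    v ∈ mo k S B ↔ ∃ b ∈ B, ∃ w ∈ AddSubgroup.closure (S : Set (V n)), v = k • b + w := Iff.rfl

/-- admissible data -/
def ok (k : ℤ) (S : Finset (V n)) (B : AddSubgroup (V n)) : Prop :=
  k ≠ 0 ∧ ∀ v, v ∈ S → ∃ l : ℤ, l ≠ 0 ∧ l • v ∈ B

open Classical in
/-- the modification of `B` -/
noncomputable def md (p : ℤ × Finset (V n)) (B : AddSubgroup (V n)) : AddSubgroup (V n) :=
  if ok p.1 p.2 B then mo p.1 p.2 B else B

theorem md_qe (p : ℤ × Finset (V n)) (B : AddSubgroup (V n)) :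
    ∃ K : ℤ, K ≠ 0 ∧ (∀ v ∈ B, K • v ∈ md p B) ∧ ∀ v ∈ md p B, K • v ∈ B := by
  classical
  unfold md
  split_ifs with h
  · obtain ⟨hk, hS⟩ := h
    choose! l hl hlB using hS
    have hne : (∏ v ∈ p.2, l v) ≠ 0 := Finset.prod_ne_zero_iff.2 hl
    refine ⟨p.1 * ∏ v ∈ p.2, l v, mul_ne_zero hk hne, fun v hv => ?_, ?_⟩
    · refine ⟨(∏ v ∈ p.2, l v) • v, B.zsmul_mem hv _, 0, AddSubgroup.zero_mem _, ?_⟩
      rw [add_zero, smul_smul]
    · rintro _ ⟨b, hb, w, hw, rfl⟩
      rw [smul_add]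
      refine B.add_mem (B.zsmul_mem (B.zsmul_mem hb _) _) ?_
      rw [mul_smul]
      refine B.zsmul_mem ?_ _
      induction hw using AddSubgroup.closure_induction with
      | mem t ht =>
        rw [← Finset.mul_prod_erase p.2 l ht, mul_comm, mul_smul]
        exact B.zsmul_mem (hlB t ht) _
      | zero => rw [smul_zero]; exact B.zero_mem
      | add x y _ _ hx hy => rw [smul_add]; exact B.add_mem hx hy
      | neg x _ hx => rw [smul_neg]; exact B.neg_mem hx
  · exact ⟨1, one_ne_zero, fun v hv => by rw [one_smul]; exact hv, fun v hv => by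
      rw [one_smul]; exact hv⟩

theorem md_surj {K : ℤ} (hK : K ≠ 0) {B C : AddSubgroup (V n)} (h1 : ∀ v ∈ B, K • v ∈ C)
    (h2 : ∀ v ∈ C, K • v ∈ B) : ∃ p, md p B = C := by
  classical
  obtain ⟨S, hS, h3⟩ := fin_any (K * K).natAbs
    (Int.natAbs_ne_zero.2 (mul_ne_zero hK hK)) C
  have h4 : (((K * K).natAbs : ℕ) : ℤ) = K * K := Int.natAbs_of_nonneg (mul_self_nonneg K)
  rw [h4] at h3
  refine ⟨(K, S), ?_⟩
  have hok : ok K S B := ⟨hK, fun v hv => ⟨K, hK, h2 v (hS v hv)⟩⟩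
  unfold md
  rw [if_pos hok]
  refine le_antisymm ?_ ?_
  · rintro _ ⟨b, hb, w, hw, rfl⟩
    refine C.add_mem (h1 b hb) ?_
    exact (AddSubgroup.closure_le C).2 hS hw
  · intro v hv
    obtain ⟨a, ha, w, hw, rfl⟩ := h3 v hv
    exact ⟨K • a, h2 a ha, w, hw, by rw [smul_smul]⟩

theorem meas_md {Z : Type} [MeasurableSpace Z] {F : Z → AddSubgroup (V n)}
    (hF : ∀ v, Measurable fun z => v ∈ F z) (p : ℤ × Finset (V n)) (v : V n) :
    Measurable fun z => v ∈ md p (F z) := by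
  classical
  have hok : Measurable fun z => ok p.1 p.2 (F z) :=
    measurable_const.and (Measurable.forall fun v => measurable_const.imp
      (Measurable.exists fun l => measurable_const.and (hF _)))
  have hmo : Measurable fun z => v ∈ mo p.1 p.2 (F z) := by
    simp only [mem_mo]
    exact Measurable.exists fun b => (hF b).and measurable_const
  have : (fun z => v ∈ md p (F z)) = fun z => (ok p.1 p.2 (F z) ∧ v ∈ mo p.1 p.2 (F z)) ∨
      (¬ ok p.1 p.2 (F z) ∧ v ∈ F z) := by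
    funext z
    apply propext
    unfold md
    split_ifs with h
    · simp [h]
    · simp [h]
  rw [this]
  exact (hok.and hmo).or (hok.not.and (hF v))

/-- the maps enumerating the classes -/
noncomputable def en (j : GQ n × (Fin m → ℤ × Finset (V n))) (A : Tup n m) : Tup n m :=
  fun i => md (j.2 i) (j.1 • A i)

theorem meas_en (j : GQ n × (Fin m → ℤ × Finset (V n))) : Measurable (en (m := m) j) := by
  rw [measurable_pi_iff]
  intro i
  refine meas_of _ fun v => ?_
  refine meas_md (F := fun A : Tup n m => j.1 • A i) (fun w => ?_) (j.2 i) v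
  exact (meas_mem n w).comp ((meas_smul j.1).comp (measurable_pi_apply i))

theorem qiso_iff (A B : Tup n m) : QIso A B ↔ ∃ j, en j A = B := by
  classical
  constructor
  · rintro ⟨g, K, hK, h⟩
    have h1 : ∀ i, ∃ p, md p (g • A i) = B i := by
      intro i
      refine md_surj hK ?_ ?_
      · intro v hv
        rw [mem_gsmul] at hv
        have := (h i).1 _ hv
        rwa [apply_inv] at this
      · intro v hv
        rw [mem_gsmul, map_zsmul]
        exact (h i).2 v hv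
    choose p hp using h1
    exact ⟨(g, p), funext hp⟩
  · rintro ⟨⟨g, p⟩, rfl⟩
    choose K hK h1 h2 using fun i => md_qe (p i) (g • A i)
    have hp : ∀ i, (∏ j, K j) = (∏ j ∈ Finset.univ.erase i, K j) * K i := fun i =>
      (Finset.prod_erase_mul Finset.univ K (Finset.mem_univ i)).symm
    refine ⟨g, ∏ i, K i, Finset.prod_ne_zero_iff.2 fun i _ => hK i, fun i => ⟨fun v hv => ?_,
      fun v hv => ?_⟩⟩
    · rw [hp i, mul_smul]
      exact AddSubgroup.zsmul_mem _ (h1 i _ ((apply_mem_gsmul _ _ _).2 hv)) _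
    · rw [hp i, mul_smul]
      have := h2 i v hv
      rw [mem_gsmul, map_zsmul] at this
      exact AddSubgroup.zsmul_mem _ this _

theorem QIso_refl (A : Tup n m) : QIso A A := ⟨1, QE_refl A⟩

theorem QIso_symm {A B : Tup n m} (h : QIso A B) : QIso B A := by
  obtain ⟨g, hg⟩ := h
  exact ⟨g⁻¹, QE_symm hg⟩

theorem QIso_trans {A B C : Tup n m} (h1 : QIso A B) (h2 : QIso B C) : QIso A C := by
  obtain ⟨g, hg⟩ := h1
  obtain ⟨h, hh⟩ := h2
  exact ⟨h * g, QE_trans hg hh⟩

end Pool.Agent.Y618.EF
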