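import Pool.Agent.H418R3.EF.Stmts

set_option autoImplicit false

/-! An equivalence relation which is enumerated by countably many Borel maps is the orbit relation
of a countable group acting by Borel maps. -/

namespace Pool.Agent.Y618.EF

section

variable {X : Type}

open Classical in
/-- swap `x` and `a x` for `x ∈ B`, `a x ∉ B`, `b (a x) = x` -/
noncomputable def sw (a b : X → X) (B : Set X) (x : X) : X :=
  if x ∈ B ∧ a x ∉ B ∧ b (a x) = x then a x
  else if x ∉ B ∧ b x ∈ B ∧ a (b x) = x then b x else x

theorem sw_sw (a b : X → X) (B : Set X) (x : X) : sw a b B (sw a b B x) = x := by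
  by_cases h1 : x ∈ B ∧ a x ∉ B ∧ b (a x) = x
  · have e1 : sw a b B x = a x := by unfold sw; rw [if_pos h1]
    obtain ⟨h2, h3, h4⟩ := h1
    rw [e1]
    unfold sw
    rw [if_neg (by tauto), if_pos ⟨h3, by rw [h4]; exact h2, by rw [h4]⟩, h4]
  · by_cases h2 : x ∉ B ∧ b x ∈ B ∧ a (b x) = x
    · have e1 : sw a b B x = b x := by unfold sw; rw [if_neg h1, if_pos h2]
      obtain ⟨h3, h4, h5⟩ := h2
      rw [e1]
      unfold sw
      rw [if_pos ⟨h4, by rw [h5]; exact h3, by rw [h5]⟩, h5]
    · have e1 : sw a b B x = x := by unfold sw; rw [if_neg h1, if_neg h2]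
      rw [e1, e1]

/-- the permutation -/
noncomputable def swp (a b : X → X) (B : Set X) : Equiv.Perm X where
  toFun := sw a b B
  invFun := sw a b B
  left_inv := sw_sw a b B
  right_inv := sw_sw a b B

theorem meas_sw [MeasurableSpace X] {a b : X → X} {B : Set X} (ha : Measurable a)
    (hb : Measurable b) (hB : MeasurableSet B)
    (hab : MeasurableSet {x | b (a x) = x}) (hba : MeasurableSet {x | a (b x) = x}) :
    Measurable (sw a b B) := by
  unfold sw
  refine Measurable.ite ?_ ha (Measurable.ite ?_ hb measurable_id)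
  · exact hB.inter ((ha hB).compl.inter hab)
  · exact hB.compl.inter ((hb hB).inter hba)

end

theorem feldman_moore {X : Type} [MeasurableSpace X] [StandardBorelSpace X] {J : Type}
    [Countable J] (F : J → X → X) (hF : ∀ j, Measurable (F j)) (E : X → X → Prop)
    (hE : ∀ x y, E x y ↔ ∃ j, F j x = y) (hrefl : ∀ x, E x x) (hsymm : ∀ x y, E x y → E y x)
    (htrans : ∀ x y z, E x y → E y z → E x z) :
    ∃ (K : Type) (_ : Group K) (_ : Countable K) (_ : MulAction K X),
      (∀ k : K, Measurable (fun x : X => k • x)) ∧ ∀ x y, E x y ↔ ∃ k : K, k • x = y := by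
  classical
  obtain ⟨f, hfm, hfi⟩ := MeasurableSpace.measurable_injection_nat_bool_of_countablySeparated X
  let B : ℕ × Bool → Set X := fun p => {x | f x p.1 = p.2}
  have hBm : ∀ p, MeasurableSet (B p) := fun p =>
    ((measurable_pi_apply p.1).comp hfm) (measurableSet_singleton p.2)
  have hsep : ∀ x y : X, x ≠ y → ∃ p, x ∈ B p ∧ y ∉ B p := by
    intro x y hxy
    have h1 : f x ≠ f y := fun h => hxy (hfi h)
    obtain ⟨k, hk⟩ := Function.ne_iff.1 h1
    exact ⟨(k, f x k), rfl, fun h => hk h.symm⟩
  have hmeq : ∀ a : X → X, Measurable a → MeasurableSet {x | a x = x} := by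
    intro a ha
    have : {x | a x = x} = ⋂ p, ((a ⁻¹' B p ∩ B p) ∪ ((a ⁻¹' B p)ᶜ ∩ (B p)ᶜ)) := by
      ext x
      simp only [Set.mem_ofPred_eq, Set.mem_iInter, Set.mem_union, Set.mem_inter_iff,
        Set.mem_preimage, Set.mem_compl_iff]
      constructor
      · intro h p
        rw [h]
        tauto
      · intro h
        by_contra hne
        obtain ⟨p, h1, h2⟩ := hsep _ _ hne
        have := h p
        tauto
    rw [this]
    exact MeasurableSet.iInter fun p => ((ha (hBm p)).inter (hBm p)).union
      ((ha (hBm p)).compl.inter (hBm p).compl)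
  let σ : J × J × (ℕ × Bool) → Equiv.Perm X := fun t => swp (F t.1) (F t.2.1) (B t.2.2)
  let K : Type := FreeGroup (J × J × (ℕ × Bool))
  have hK : Countable K := by
    have : Function.Surjective (FreeGroup.mk : List ((J × J × (ℕ × Bool)) × Bool) → K) :=
      Quot.mk_surjective
    exact this.countable
  let φ : K →* Equiv.Perm X := FreeGroup.lift σ
  let act : MulAction K X := MulAction.compHom X φ
  have hact : ∀ (k : K) (x : X), k • x = φ k x := fun _ _ => rfl
  have hof : ∀ (t : J × J × (ℕ × Bool)) (x : X), φ (FreeGroup.of t) x = sw (F t.1) (F t.2.1) (B t.2.2) x := by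
    intro t x
    have : φ (FreeGroup.of t) = σ t := FreeGroup.lift_apply_of
    rw [this]
    rfl
  have hofi : ∀ (t : J × J × (ℕ × Bool)) (x : X), φ (FreeGroup.of t)⁻¹ x = sw (F t.1) (F t.2.1) (B t.2.2) x := by
    intro t x
    have : φ (FreeGroup.of t) = σ t := FreeGroup.lift_apply_of
    rw [map_inv, this]
    rfl
  have hswm : ∀ t : J × J × (ℕ × Bool), Measurable (sw (F t.1) (F t.2.1) (B t.2.2)) := fun t =>
    meas_sw (hF _) (hF _) (hBm _) (hmeq _ ((hF _).comp (hF _))) (hmeq _ ((hF _).comp (hF _)))
  have hswE : ∀ (t : J × J × (ℕ × Bool)) (x : X), E x (sw (F t.1) (F t.2.1) (B t.2.2) x) := by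
    intro t x
    unfold sw
    split_ifs
    · exact (hE _ _).2 ⟨_, rfl⟩
    · exact (hE _ _).2 ⟨_, rfl⟩
    · exact hrefl x
  refine ⟨K, inferInstance, hK, act, ?_, ?_⟩
  · intro k
    induction k using FreeGroup.induction_on with
    | C1 =>
      have : (fun x : X => (1 : K) • x) = id := by funext x; exact one_smul _ _
      rw [this]
      exact measurable_id
    | of t =>
      have : (fun x : X => (FreeGroup.of t : K) • x) = sw (F t.1) (F t.2.1) (B t.2.2) := by
        funext x; exact hof t x
      rw [this]
      exact hswm t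
    | inv_of t _ =>
      have : (fun x : X => ((FreeGroup.of t)⁻¹ : K) • x) = sw (F t.1) (F t.2.1) (B t.2.2) := by
        funext x; exact hofi t x
      rw [this]
      exact hswm t
    | mul x y hx hy =>
      have : (fun z : X => (x * y : K) • z) = (fun z : X => x • z) ∘ (fun z : X => y • z) := by
        funext z; exact mul_smul _ _ _
      rw [this]
      exact hx.comp hy
  · have hEact : ∀ (k : K) (x : X), E x (k • x) := by
      intro k
      induction k using FreeGroup.induction_on with
      | C1 => intro x; rw [one_smul]; exact hrefl x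
      | of t => intro x; rw [hact, hof]; exact hswE t x
      | inv_of t _ => intro x; rw [hact, hofi]; exact hswE t x
      | mul a b ha hb =>
        intro x
        rw [mul_smul]
        exact htrans _ _ _ (hb x) (ha _)
    intro x y
    constructor
    · intro h
      by_cases hxy : x = y
      · exact ⟨1, by rw [one_smul]; exact hxy⟩
      · obtain ⟨i, hi⟩ := (hE _ _).1 h
        obtain ⟨j, hj⟩ := (hE _ _).1 (hsymm _ _ h)
        obtain ⟨p, h1, h2⟩ := hsep x y hxy
        refine ⟨FreeGroup.of (i, j, p), ?_⟩
        rw [hact, hof]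
        unfold sw
        have h3 : F (i, j, p).1 x = y := hi
        have h4 : F (i, j, p).2.1 y = x := hj
        rw [if_pos ⟨h1, by rw [h3]; exact h2, by rw [h3]; exact h4⟩]
        exact hi
    · rintro ⟨k, rfl⟩
      exact hEact k x

end Pool.Agent.Y618.EF
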