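import Pool.Agent.Y618.EF.Main

set_option autoImplicit false

/-! All finite ranks at once. -/

namespace Pool.Agent.Y618.EF

open Pool.Agent.H418R3.EF Pool.Agent.W919.EF
open scoped Pointwise

/-! ### the space -/

theorem measW (v : W) : Measurable fun A : AddSubgroup W => v ∈ A :=
  (measurable_pi_apply v).comp (comap_measurable (fun A : AddSubgroup W => fun v : W => v ∈ A))

theorem measW_of {Z : Type} [MeasurableSpace Z] (F : Z → AddSubgroup W)
    (h : ∀ v, Measurable fun z => v ∈ F z) : Measurable F := by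
  have h1 : Measurable ((fun A : AddSubgroup W => fun v : W => v ∈ A) ∘ F) := by
    rw [measurable_pi_iff]
    exact h
  exact measurable_comap_iff.2 h1

instance : Countable W := inferInstanceAs (Countable (ℕ →₀ ℚ))

theorem rangeW : Set.range (fun A : AddSubgroup W => fun v : W => v ∈ A) =
    {s : W → Prop | s 0 ∧ (∀ a b, s a → s b → s (a + b)) ∧ (∀ a, s a → s (-a))} := by
  ext s
  constructor
  · rintro ⟨A, rfl⟩
    exact ⟨A.zero_mem, fun a b => A.add_mem, fun a => A.neg_mem⟩
  · rintro ⟨h1, h2, h3⟩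
    exact ⟨{ carrier := {v | s v}
             zero_mem' := h1
             add_mem' := fun {a b} ha hb => h2 a b ha hb
             neg_mem' := fun {a} ha => h3 a ha }, rfl⟩

theorem meas_rangeW : MeasurableSet (Set.range (fun A : AddSubgroup W => fun v : W => v ∈ A)) := by
  rw [rangeW, measurableSet_setOfPred]
  have hm : ∀ v : W, Measurable fun s : W → Prop => s v := fun v => measurable_pi_apply v
  refine (hm 0).and (Measurable.and ?_ ?_)
  · exact Measurable.forall fun a => Measurable.forall fun b =>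
      (hm a).imp ((hm b).imp (hm (a + b)))
  · exact Measurable.forall fun a => (hm a).imp (hm (-a))

theorem embW : MeasurableEmbedding (fun A : AddSubgroup W => fun v : W => v ∈ A) where
  injective := by
    intro A B h
    ext v
    exact iff_of_eq (congrFun h v)
  measurable := comap_measurable _
  measurableSet_image' := by
    rintro s ⟨t, ht, rfl⟩
    rw [Set.image_preimage_eq_inter_range]
    exact ht.inter meas_rangeW

instance standardW : StandardBorelSpace (AddSubgroup W) := by
  have := meas_rangeW.standardBorel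
  exact Pool.Agent.H861R3.EFStd.standardBorel_of_equiv embW.equivRange

/-- `A ⊆ ℚ ^ n` -/
def Bd (n : ℕ) (A : AddSubgroup W) : Prop := ∀ v ∈ A, ∀ i, n ≤ i → v i = 0

theorem meas_Bd (n : ℕ) : MeasurableSet {A : AddSubgroup W | Bd n A} := by
  rw [measurableSet_setOfPred]
  unfold Bd
  exact Measurable.forall fun v => (measW v).imp measurable_const

/-- The torsion-free abelian groups of finite rank: the subgroups of `ℚ ^ (ℕ)` which are
contained in `ℚ ^ n` for some `n`. -/
def FinRk : Type := {A : AddSubgroup W // ∃ n, ∀ v ∈ A, ∀ i, n ≤ i → v i = 0}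

instance : MeasurableSpace FinRk :=
  inferInstanceAs (MeasurableSpace {A : AddSubgroup W // ∃ n, ∀ v ∈ A, ∀ i, n ≤ i → v i = 0})

instance standardF : StandardBorelSpace FinRk := by
  have h : MeasurableSet {A : AddSubgroup W | ∃ n, ∀ v ∈ A, ∀ i, n ≤ i → v i = 0} := by
    rw [measurableSet_setOfPred]
    exact Measurable.exists fun n => measurableSet_setOfPred.1 (meas_Bd n)
  exact h.standardBorel

/-- Isomorphism of torsion-free abelian groups of finite rank. -/
def IsoF (A B : FinRk) : Prop := Nonempty (A.1 ≃+ B.1)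

/-- Quasi-isomorphism of torsion-free abelian groups of finite rank: there are homomorphisms
`f : A → B` and `h : B → A` and `k ≠ 0` such that `h ∘ f` and `f ∘ h` are multiplication by `k`. -/
def QIsoF (A B : FinRk) : Prop := ∃ (f : A.1 →+ B.1) (h : B.1 →+ A.1) (k : ℤ), k ≠ 0 ∧
  (∀ a, h (f a) = k • a) ∧ ∀ b, f (h b) = k • b

/-! ### cutting and putting -/

/-- the inclusion of `ℚ ^ n` -/
noncomputable def inc (n : ℕ) : V n →+ W where
  toFun v := Finsupp.onFinset (Finset.range n) (fun i => if h : i < n then v ⟨i, h⟩ else 0)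
    (by
      intro i hi
      by_contra hc
      rw [Finset.mem_range] at hc
      exact hi (dif_neg hc))
  map_zero' := by
    ext i
    simp
  map_add' := by
    intro a b
    ext i
    simp only [Finsupp.onFinset_apply, Finsupp.add_apply]
    split_ifs
    · rfl
    · simp

theorem inc_apply (n : ℕ) (v : V n) (i : ℕ) : inc n v i = if h : i < n then v ⟨i, h⟩ else 0 := rfl

theorem inc_inj (n : ℕ) : Function.Injective (inc n) := by
  intro a b h
  funext i
  have := DFunLike.congr_fun h (i : ℕ)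
  rw [inc_apply, inc_apply, dif_pos i.2, dif_pos i.2] at this
  exact this

/-- the first coordinates -/
def res (n : ℕ) (w : W) : V n := fun i => w i

theorem inc_res {n : ℕ} {w : W} (h : ∀ i, n ≤ i → w i = 0) : inc n (res n w) = w := by
  ext i
  rw [inc_apply]
  split_ifs with hi
  · rfl
  · exact (h i (not_lt.1 hi)).symm

/-- `A ∩ ℚ ^ n` -/
noncomputable def cut (n : ℕ) (A : AddSubgroup W) : AddSubgroup (V n) := A.comap (inc n)

theorem mem_cut {n : ℕ} {A : AddSubgroup W} {v : V n} : v ∈ cut n A ↔ inc n v ∈ A := Iff.rfl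

/-- `B` as a subgroup of `ℚ ^ (ℕ)` -/
noncomputable def put (n : ℕ) (B : AddSubgroup (V n)) : AddSubgroup W := B.map (inc n)

theorem mem_put {n : ℕ} {B : AddSubgroup (V n)} {w : W} :
    w ∈ put n B ↔ ∃ v ∈ B, inc n v = w := AddSubgroup.mem_map

theorem cut_put (n : ℕ) (B : AddSubgroup (V n)) : cut n (put n B) = B := by
  ext v
  rw [mem_cut, mem_put]
  constructor
  · rintro ⟨u, hu, h⟩
    rw [← inc_inj n h]
    exact hu
  · intro h
    exact ⟨v, h, rfl⟩

theorem put_cut {n : ℕ} {A : AddSubgroup W} (h : Bd n A) : put n (cut n A) = A := by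
  ext w
  rw [mem_put]
  constructor
  · rintro ⟨u, hu, rfl⟩
    exact hu
  · intro hw
    have h1 := inc_res (h w hw)
    exact ⟨res n w, by rw [mem_cut, h1]; exact hw, h1⟩

theorem Bd_put (n : ℕ) (B : AddSubgroup (V n)) : Bd n (put n B) := by
  intro w hw i hi
  obtain ⟨v, _, rfl⟩ := mem_put.1 hw
  rw [inc_apply, dif_neg (not_lt.2 hi)]

theorem Bd_mono {n l : ℕ} (h : n ≤ l) {A : AddSubgroup W} (hA : Bd n A) : Bd l A :=
  fun v hv i hi => hA v hv i (le_trans h hi)

/-- `A ≃ A ∩ ℚ ^ n` -/
noncomputable def cutEquiv {n : ℕ} {A : AddSubgroup W} (h : Bd n A) : cut n A ≃+ A :=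
  AddEquiv.ofBijective
    (((inc n).comp (cut n A).subtype).codRestrict A (fun v => v.2))
    ⟨fun a b hab => Subtype.ext (inc_inj n (congrArg Subtype.val hab)), fun b =>
      ⟨⟨res n b.1, by rw [mem_cut, inc_res (h b.1 b.2)]; exact b.2⟩,
        Subtype.ext (inc_res (h b.1 b.2))⟩⟩

theorem cutEquiv_coe {n : ℕ} {A : AddSubgroup W} (h : Bd n A) (v : cut n A) :
    ((cutEquiv h v : A) : W) = inc n v := rfl

/-! ### extension of quasi-isomorphisms -/

theorem ext_gen {n : ℕ} (A B : AddSubgroup (V n)) (f : A →+ B) (h : B →+ A) (k : ℤ) (hk : k ≠ 0)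
    (h1 : ∀ a, h (f a) = k • a) (h2 : ∀ b, f (h b) = k • b) :
    ∃ g : GQ n, (∀ a : A, g (a : V n) = f a) ∧ ∀ b : B, k • g⁻¹ (b : V n) = h b := by
  have hkQ : (k : ℚ) ≠ 0 := by exact_mod_cast hk
  obtain ⟨F, hF⟩ := Pool.Agent.H861R3.EFIso.ext A (B.subtype.comp f)
  obtain ⟨H, hH⟩ := Pool.Agent.H861R3.EFIso.ext B (A.subtype.comp h)
  have hF1 : ∀ a : A, F (a : V n) = (f a : V n) := hF
  have hH1 : ∀ b : B, H (b : V n) = (h b : V n) := hH
  let S : Submodule ℚ (V n) := Submodule.span ℚ (A : Set (V n))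
  let T : Submodule ℚ (V n) := Submodule.span ℚ (B : Set (V n))
  have hFS : ∀ v ∈ S, F v ∈ T := by
    intro v hv
    have : S ≤ T.comap F := by
      rw [Submodule.span_le]
      intro a ha
      have := hF1 ⟨a, ha⟩
      change F a ∈ T
      rw [show F a = _ from this]
      exact Submodule.subset_span (f ⟨a, ha⟩).2
    exact this hv
  have hHT : ∀ v ∈ T, H v ∈ S := by
    intro v hv
    have : T ≤ S.comap H := by
      rw [Submodule.span_le]
      intro a ha
      have := hH1 ⟨a, ha⟩
      change H a ∈ S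
      rw [show H a = _ from this]
      exact Submodule.subset_span (h ⟨a, ha⟩).2
    exact this hv
  have hHF : ∀ v ∈ S, H (F v) = (k : ℚ) • v := by
    intro v hv
    refine Submodule.span_induction (p := fun v _ => H (F v) = (k : ℚ) • v) ?_ ?_ ?_ ?_ hv
    · intro a ha
      rw [hF1 ⟨a, ha⟩, hH1, h1]
      rw [Int.cast_smul_eq_zsmul]
      rfl
    · simp
    · intro x y _ _ hx hy
      rw [map_add, map_add, hx, hy, smul_add]
    · intro a x _ hx
      rw [map_smul, map_smul, hx, smul_comm]
  have hFH : ∀ v ∈ T, F (H v) = (k : ℚ) • v := by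
    intro v hv
    refine Submodule.span_induction (p := fun v _ => F (H v) = (k : ℚ) • v) ?_ ?_ ?_ ?_ hv
    · intro a ha
      rw [hH1 ⟨a, ha⟩, hF1, h2]
      rw [Int.cast_smul_eq_zsmul]
      rfl
    · simp
    · intro x y _ _ hx hy
      rw [map_add, map_add, hx, hy, smul_add]
    · intro a x _ hx
      rw [map_smul, map_smul, hx, smul_comm]
  let φ1 : S →ₗ[ℚ] T := F.restrict hFS
  let φ2 : T →ₗ[ℚ] S := (k : ℚ)⁻¹ • H.restrict hHT
  have hφ1 : ∀ s : S, ((φ1 s : T) : V n) = F s := fun _ => rfl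
  have hφ2 : ∀ t : T, ((φ2 t : S) : V n) = (k : ℚ)⁻¹ • H t := fun _ => rfl
  let φ : S ≃ₗ[ℚ] T := LinearEquiv.ofLinearMap φ1 φ2 (by
    ext t : 1
    refine Subtype.ext ?_
    rw [LinearMap.comp_apply, hφ1, hφ2, map_smul, hFH _ t.2, smul_smul, inv_mul_cancel₀ hkQ,
      one_smul]
    rfl) (by
    ext s : 1
    refine Subtype.ext ?_
    rw [LinearMap.comp_apply, hφ2, hφ1, hHF _ s.2, smul_smul, inv_mul_cancel₀ hkQ,
      one_smul]
    rfl)
  obtain ⟨S', hS⟩ := Submodule.exists_isCompl S
  obtain ⟨T', hT⟩ := Submodule.exists_isCompl T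
  have hfr : Module.finrank ℚ S' = Module.finrank ℚ T' := by
    have e1 := Submodule.finrank_add_eq_of_isCompl hS
    have e2 := Submodule.finrank_add_eq_of_isCompl hT
    have e3 := φ.finrank_eq
    omega
  let ψ : S' ≃ₗ[ℚ] T' := LinearEquiv.ofFinrankEq S' T' hfr
  let g : GQ n := (Submodule.prodEquivOfIsCompl S S' hS).symm ≪≫ₗ (φ.prodCongr ψ) ≪≫ₗ
    (Submodule.prodEquivOfIsCompl T T' hT)
  have hg : ∀ s : S, g (s : V n) = F s := by
    intro s
    change (Submodule.prodEquivOfIsCompl T T' hT) ((φ.prodCongr ψ)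
      ((Submodule.prodEquivOfIsCompl S S' hS).symm (s : V n))) = F s
    rw [Submodule.prodEquivOfIsCompl_symm_apply_left]
    simp only [LinearEquiv.prodCongr_apply, map_zero, Submodule.coe_prodEquivOfIsCompl']
    rw [Submodule.coe_zero, add_zero]
    rfl
  refine ⟨g, fun a => ?_, fun b => ?_⟩
  · rw [← hF1]
    exact hg ⟨a, Submodule.subset_span a.2⟩
  · have h3 := hg ⟨(h b : V n), Submodule.subset_span (h b).2⟩
    simp only at h3
    rw [hF1, h2] at h3
    have h4 : g⁻¹ (g (h b : V n)) = h b := inv_apply g _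
    rw [← h4, h3, ← map_zsmul]
    rfl

end Pool.Agent.Y618.EF
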