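import Pool.Agent.Y618.EF.Coc
import Pool.Agent.Y618.EF.Enum
import Pool.Agent.Y618.EF.FM

set_option autoImplicit false

/-! Relations which reduce weakly to quasi-isomorphism of tuples are essentially free. -/

namespace Pool.Agent.Y618.EF

open Pool.Agent.H418R3.EF Pool.Agent.W919.EF
open scoped Pointwise

variable {n m : ℕ}

/-- the algebra of quasi-endomorphisms of a tuple -/
def DT (A : Tup n m) : Subalgebra ℚ (Module.End ℚ (V n)) where
  carrier := {f | ∃ k : ℤ, k ≠ 0 ∧ ∀ i, ∀ v ∈ A i, k • f v ∈ A i}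
  mul_mem' := by
    rintro f g ⟨k, hk, h1⟩ ⟨l, hl, h2⟩
    refine ⟨k * l, mul_ne_zero hk hl, fun i v hv => ?_⟩
    have h3 := h1 i _ (h2 i _ hv)
    rw [map_zsmul, smul_smul] at h3
    exact h3
  add_mem' := by
    rintro f g ⟨k, hk, h1⟩ ⟨l, hl, h2⟩
    refine ⟨k * l, mul_ne_zero hk hl, fun i v hv => ?_⟩
    rw [LinearMap.add_apply, smul_add]
    refine (A i).add_mem ?_ ?_
    · rw [mul_comm, mul_smul]
      exact (A i).zsmul_mem (h1 i v hv) _
    · rw [mul_smul]
      exact (A i).zsmul_mem (h2 i v hv) _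
  algebraMap_mem' := by
    intro r
    refine ⟨r.den, by exact_mod_cast r.den_nz, fun i v hv => ?_⟩
    have : (r.den : ℤ) • (algebraMap ℚ (Module.End ℚ (V n)) r) v = r.num • v := by
      rw [Module.algebraMap_end_apply, ← Int.cast_smul_eq_zsmul ℚ, ← Int.cast_smul_eq_zsmul ℚ,
        smul_smul]
      congr 1
      push_cast
      rw [mul_comm]
      exact Rat.mul_den_eq_num r
    rw [this]
    exact (A i).zsmul_mem hv _

theorem coverT (A : Tup n m) : ∃ m0 : ℕ, A ∈ PT' (DT A) m (m0 + 1) := by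
  classical
  have hfg : ((DT A).toSubmodule.toAddSubgroup.comap (ψ n)).FG := by
    have h := IsNoetherian.noetherian
      (AddSubgroup.toIntSubmodule ((DT A).toSubmodule.toAddSubgroup.comap (ψ n)))
    rw [Submodule.fg_iff_addSubgroup_fg] at h
    simpa using h
  obtain ⟨T, hT⟩ := hfg
  have h1 : ∀ t ∈ T, ∃ k : ℤ, k ≠ 0 ∧ ∀ i, ∀ v ∈ A i, k • ψ n t v ∈ A i := by
    intro t ht
    have h2 : t ∈ AddSubgroup.closure (T : Set (Fin n → Fin n → ℤ)) :=
      AddSubgroup.subset_closure ht
    rw [hT] at h2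
    exact h2
  choose! k hk hk2 using h1
  have hprod : (∏ t ∈ T, k t) ≠ 0 := Finset.prod_ne_zero_iff.2 hk
  have h3 : ∀ w ∈ AddSubgroup.closure (T : Set (Fin n → Fin n → ℤ)),
      ∀ i, ∀ v ∈ A i, (∏ t ∈ T, k t) • ψ n w v ∈ A i := by
    intro w hw
    induction hw using AddSubgroup.closure_induction with
    | mem t ht =>
      intro i v hv
      rw [← Finset.mul_prod_erase T k ht, mul_comm, mul_smul]
      exact (A i).zsmul_mem (hk2 t ht i v hv) _
    | zero =>
      intro i v _
      rw [map_zero, LinearMap.zero_apply, smul_zero]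
      exact (A i).zero_mem
    | add x y _ _ hx hy =>
      intro i v hv
      rw [map_add, LinearMap.add_apply, smul_add]
      exact (A i).add_mem (hx i v hv) (hy i v hv)
    | neg x _ hx =>
      intro i v hv
      rw [map_neg, LinearMap.neg_apply, smul_neg]
      exact (A i).neg_mem (hx i v hv)
  obtain ⟨m0, hm0⟩ := Nat.exists_eq_succ_of_ne_zero (Int.natAbs_ne_zero.2 hprod)
  refine ⟨m0, fun f => Iff.rfl, fun f hf hstd i v hv => ?_⟩
  obtain ⟨w, rfl⟩ := exists_ψ f hstd
  have hw : w ∈ AddSubgroup.closure (T : Set (Fin n → Fin n → ℤ)) := by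
    rw [hT]; exact hf
  have h4 := h3 w hw i v hv
  have h5 : ((m0 + 1 : ℕ) : ℤ) = (((∏ t ∈ T, k t).natAbs : ℕ) : ℤ) := by rw [hm0]
  rw [h5]
  rcases Int.natAbs_eq (∏ t ∈ T, k t) with h6 | h6
  · rw [← h6]; exact h4
  · have : (((∏ t ∈ T, k t).natAbs : ℕ) : ℤ) = - ∏ t ∈ T, k t := by omega
    rw [this, neg_smul]; exact (A i).neg_mem h4

/-- The general criterion: the relation is covered, up to saturation, by countably many Borel sets
on which it has a Borel homomorphism to quasi-isomorphism of tuples which is injective on classes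
up to a label in `ℕ`. -/
theorem essFree_cov {Z K : Type} [Group K] [Countable K] [MulAction K Z] [MeasurableSpace Z]
    [StandardBorelSpace Z] (hact : ∀ k : K, Measurable (fun z : Z => k • z))
    (Q : ℕ → Set Z) (hQ : ∀ i, MeasurableSet (Q i)) (nn mm : ℕ → ℕ)
    (f : ∀ i, Z → Tup (nn i) (mm i)) (hf : ∀ i, Measurable (f i))
    (c : ℕ → Z → ℕ) (hc : ∀ i, Measurable (c i))
    (h1 : ∀ i (k : K) (z : Z), z ∈ Q i → k • z ∈ Q i → QIso (f i z) (f i (k • z)))
    (h2 : ∀ i (k : K) (z : Z), z ∈ Q i → k • z ∈ Q i → f i (k • z) = f i z →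
      c i (k • z) = c i z → k • z = z)
    (hcov : ∀ z : Z, ∃ i, ∃ k : K, k • z ∈ Q i)
    (P : Set Z) (hP : MeasurableSet P) :
    EssFree (fun x y : P => ∃ k : K, k • (x : Z) = (y : Z)) := by
  let I : Type := Σ i : ℕ, Subalgebra ℚ (Module.End ℚ (V (nn i))) × ℕ
  have hI : Countable I := inferInstanceAs (Countable (Σ i : ℕ, Subalgebra ℚ (Module.End ℚ (V (nn i))) × ℕ))
  have hPT : ∀ i : I, HasCoc K (Q i.1 ∩ f i.1 ⁻¹' PT' i.2.1 (mm i.1) (i.2.2 + 1)) := fun i =>
    hasCoc_PT i.2.1 hact (f i.1) (hf i.1) (c i.1) (hc i.1) (Q i.1) (hQ i.1) (h1 i.1) (h2 i.1)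
      (i.2.2 + 1) (Nat.succ_ne_zero _)
  have hPm : ∀ i : I, MeasurableSet (Q i.1 ∩ f i.1 ⁻¹' PT' i.2.1 (mm i.1) (i.2.2 + 1)) := by
    intro i
    obtain ⟨Γ, _, _, _, ℓ, _, _, _, h4⟩ := hPT i
    have : Q i.1 ∩ f i.1 ⁻¹' PT' i.2.1 (mm i.1) (i.2.2 + 1) =
        ⋃ k : ℕ, {x | x ∈ Q i.1 ∩ f i.1 ⁻¹' PT' i.2.1 (mm i.1) (i.2.2 + 1) ∧ ℓ x = k} := by
      ext x
      simp
    rw [this]
    exact MeasurableSet.iUnion fun k => h4 k
  have hu : HasCoc K (Set.univ : Set Z) := Pool.Agent.H418R3.EF.Glue125.t K Z hact I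
    (fun i => Q i.1 ∩ f i.1 ⁻¹' PT' i.2.1 (mm i.1) (i.2.2 + 1)) hPm hPT
    (fun z => by
      obtain ⟨i, k, hk⟩ := hcov z
      obtain ⟨m0, hm0⟩ := coverT (f i (k • z))
      exact ⟨⟨i, DT (f i (k • z)), m0⟩, k, hk, hm0⟩)
  exact Pool.Agent.H938R3.EF.t K Z hact P hP (hasCoc_mono hact (Set.subset_univ P) hP hu)

theorem essFree_gen {Z K : Type} [Group K] [Countable K] [MulAction K Z] [MeasurableSpace Z]
    [StandardBorelSpace Z]
    (hact : ∀ k : K, Measurable (fun z : Z => k • z)) (f : Z → Tup n m) (hf : Measurable f)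
    (c : Z → ℕ) (hc : Measurable c) (h1 : ∀ (k : K) (z : Z), QIso (f z) (f (k • z)))
    (h2 : ∀ (k : K) (z : Z), f (k • z) = f z → c (k • z) = c z → k • z = z)
    (P : Set Z) (hP : MeasurableSet P) :
    EssFree (fun x y : P => ∃ k : K, k • (x : Z) = (y : Z)) :=
  essFree_cov hact (fun _ => Set.univ) (fun _ => MeasurableSet.univ) (fun _ => n) (fun _ => m)
    (fun _ => f) (fun _ => hf) (fun _ => c) (fun _ => hc) (fun _ k z _ _ => h1 k z)
    (fun _ k z _ _ => h2 k z) (fun z => ⟨0, 1, trivial⟩) P hP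

/-- Isomorphism of tuples is essentially free. -/
theorem essFree_Iso (P : Set (Tup n m)) (hP : MeasurableSet P) :
    EssFree (fun A B : P => Iso (A : Tup n m) (B : Tup n m)) := by
  have hcG : Countable (GQ n) := (Pool.Agent.H861R3.EFStd.t n).1
  have hact : ∀ g : GQ n, Measurable (fun A : Tup n m => g • A) := by
    intro g
    rw [measurable_pi_iff]
    intro i
    exact (meas_smul g).comp (measurable_pi_apply i)
  have h := essFree_gen (K := GQ n) hact (fun A : Tup n m => A) measurable_id (fun _ => 0)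
    measurable_const (fun g A => ⟨g, QE_of_eq fun i => rfl⟩) (fun g A h _ => h) P hP
  have he : (fun A B : P => Iso (A : Tup n m) (B : Tup n m)) =
      (fun x y : P => ∃ g : GQ n, g • (x : Tup n m) = (y : Tup n m)) := by
    funext A B
    apply propext
    refine exists_congr fun g => ?_
    exact ⟨fun h => funext h, fun h i => congrFun h i⟩
  rw [he]
  exact h

/-- Quasi-isomorphism of tuples is essentially free. -/
theorem essFree_QIso (P : Set (Tup n m)) (hP : MeasurableSet P) :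
    EssFree (fun A B : P => QIso (A : Tup n m) (B : Tup n m)) := by
  have hcG : Countable (GQ n) := (Pool.Agent.H861R3.EFStd.t n).1
  obtain ⟨K, _, _, _, hact, hK⟩ := feldman_moore (en (n := n) (m := m)) meas_en QIso qiso_iff
    QIso_refl (fun _ _ => QIso_symm) (fun _ _ _ => QIso_trans)
  have h := essFree_gen (K := K) hact (fun A : Tup n m => A) measurable_id (fun _ => 0)
    measurable_const (fun g A => (hK _ _).2 ⟨g, rfl⟩) (fun g A h _ => h) P hP
  have he : (fun A B : P => QIso (A : Tup n m) (B : Tup n m)) =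
      (fun x y : P => ∃ g : K, g • (x : Tup n m) = (y : Tup n m)) := by
    funext A B
    exact propext (hK _ _)
  rw [he]
  exact h

/-! ### rank `n` groups -/

/-- the tuples of length one given by groups of rank `n` -/
def P1 (n : ℕ) : Set (Tup n 1) := {A | Submodule.span ℚ (A 0 : Set (V n)) = ⊤}

theorem meas_P1 (n : ℕ) : MeasurableSet (P1 n) := by
  have : P1 n = {A : Tup n 1 | ∀ v : V n, ∃ T : Finset (V n),
      v ∈ Submodule.span ℚ (T : Set (V n)) ∧ ∀ t, t ∈ T → t ∈ A 0} := by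
    ext A
    exact Pool.Agent.H861R3.EFStd.span_iff n _
  rw [this, measurableSet_setOfPred]
  exact Measurable.forall fun v => Measurable.exists fun T => measurable_const.and
    (Measurable.forall fun t => measurable_const.imp
      ((meas_mem n t).comp (measurable_pi_apply (0 : Fin 1))))

/-- the identification -/
def e1 (n : ℕ) : P1 n ≃ᵐ Sn n where
  toFun A := ⟨A.1 0, A.2⟩
  invFun A := ⟨fun _ => A.1, A.2⟩
  left_inv A := by
    refine Subtype.ext (funext fun i => ?_)
    have : i = 0 := Subsingleton.elim _ _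
    rw [this]
  right_inv A := rfl
  measurable_toFun := by
    refine measurable_comap_iff.2 ?_
    rw [measurable_pi_iff]
    intro v
    exact (meas_mem n v).comp ((measurable_pi_apply (0 : Fin 1)).comp measurable_subtype_coe)
  measurable_invFun := by
    refine Measurable.subtype_mk ?_
    rw [measurable_pi_iff]
    intro i
    exact meas_of _ fun v => Pool.Agent.H861R3.EFStd.meas_mem n v

/-- Quasi-isomorphism of torsion-free abelian groups of rank `n`: for some `g ∈ GL_n(ℚ)` and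
`k ≠ 0` we have `k g A ⊆ B` and `k B ⊆ g A`. -/
def QuasiIso {n : ℕ} (A B : Sn n) : Prop :=
  ∃ (g : GQ n) (k : ℤ), k ≠ 0 ∧ (∀ v ∈ (g • A).1, k • v ∈ B.1) ∧ ∀ v ∈ B.1, k • v ∈ (g • A).1

theorem essFree_iso (n : ℕ) : EssFree (IsoRel n) := by
  refine essFree_transfer (e1 n) _ _ ?_ (essFree_Iso (P1 n) (meas_P1 n))
  intro A B
  rw [Pool.Agent.H861R3.EFIso.t n]
  refine exists_congr fun g => ?_
  constructor
  · intro h
    exact Subtype.ext (h 0)
  · intro h i
    have : i = 0 := Subsingleton.elim _ _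
    rw [this]
    exact congrArg Subtype.val h

theorem essFree_quasi (n : ℕ) : EssFree (fun A B : Sn n => QuasiIso A B) := by
  refine essFree_transfer (e1 n) _ _ ?_ (essFree_QIso (P1 n) (meas_P1 n))
  intro A B
  refine exists_congr fun g => exists_congr fun k => and_congr_right fun _ => ?_
  constructor
  · intro h
    refine ⟨fun v hv => ?_, fun v hv => ?_⟩
    · rw [mem_smul] at hv
      have := (h 0).1 _ hv
      rwa [apply_inv] at this
    · rw [mem_smul, map_zsmul]
      exact (h 0).2 v hv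
  · rintro ⟨h1, h2⟩ i
    have : i = 0 := Subsingleton.elim _ _
    rw [this]
    refine ⟨fun v hv => ?_, fun v hv => ?_⟩
    · exact h1 _ (by rw [mem_smul, inv_apply]; exact hv)
    · have := h2 v hv
      rwa [mem_smul, map_zsmul] at this

end Pool.Agent.Y618.EF
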