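import Pool.Agent.Y618.EF.Fin

set_option autoImplicit false

/-! Borel equivalence relations which reduce weakly to quasi-isomorphism of tuples of subgroups of
finite rank. -/

namespace Pool.Agent.Y618.EF

open Pool.Agent.H418R3.EF Pool.Agent.W919.EF
open scoped Pointwise

/-- The `m`-tuples of torsion-free abelian groups of finite rank in a common vector space: the
`m`-tuples of subgroups of `ℚ ^ (ℕ)` which are contained in `ℚ ^ n` for some `n`. -/
def FinTup (m : ℕ) : Type :=
  {A : Fin m → AddSubgroup W // ∃ n, ∀ i, ∀ v ∈ A i, ∀ j, n ≤ j → v j = 0}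

instance instMSF (m : ℕ) : MeasurableSpace (FinTup m) :=
  inferInstanceAs (MeasurableSpace
    {A : Fin m → AddSubgroup W // ∃ n, ∀ i, ∀ v ∈ A i, ∀ j, n ≤ j → v j = 0})

/-- Quasi-isomorphism of tuples: there are linear maps `F` and `H` and `k ≠ 0` such that `F` maps
`A_i` into `B_i`, `H` maps `B_i` into `A_i`, and `H F = k` on `A_i`, `F H = k` on `B_i`. -/
def QIsoT {m : ℕ} (A B : FinTup m) : Prop :=
  ∃ (F H : W →ₗ[ℚ] W) (k : ℤ), k ≠ 0 ∧ ∀ i, (∀ v ∈ A.1 i, F v ∈ B.1 i ∧ H (F v) = k • v) ∧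
    ∀ v ∈ B.1 i, H v ∈ A.1 i ∧ F (H v) = k • v

variable {n m : ℕ}

/-- all members are contained in `ℚ ^ n` -/
def BT (n : ℕ) (A : FinTup m) : Prop := ∀ i, Bd n (A.1 i)

theorem meas_memF (i : Fin m) (v : W) : Measurable fun A : FinTup m => v ∈ A.1 i :=
  (measW v).comp ((measurable_pi_apply i).comp measurable_subtype_coe)

theorem meas_BT (n : ℕ) : MeasurableSet {A : FinTup m | BT n A} := by
  rw [measurableSet_setOfPred]
  unfold BT Bd
  exact Measurable.forall fun i => Measurable.forall fun v => (meas_memF i v).imp measurable_const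

instance standardT (m : ℕ) : StandardBorelSpace (FinTup m) := by
  have h : MeasurableSet {A : Fin m → AddSubgroup W |
      ∃ n, ∀ i, ∀ v ∈ A i, ∀ j, n ≤ j → v j = 0} := by
    rw [measurableSet_setOfPred]
    exact Measurable.exists fun n => Measurable.forall fun i => Measurable.forall fun v =>
      ((measW v).comp (measurable_pi_apply i)).imp measurable_const
  exact h.standardBorel

theorem exists_BT (A B : FinTup m) : ∃ n, BT n A ∧ BT n B := by
  obtain ⟨a, ha⟩ := A.2
  obtain ⟨b, hb⟩ := B.2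
  exact ⟨max a b, fun i => Bd_mono (le_max_left a b) (ha i),
    fun i => Bd_mono (le_max_right a b) (hb i)⟩

/-- the tuple of subgroups of `ℚ ^ n` -/
noncomputable def tt (n : ℕ) (A : FinTup m) : Tup n m := fun i => cut n (A.1 i)

theorem tt_inj {A B : FinTup m} (hA : BT n A) (hB : BT n B) (h : tt n A = tt n B) : A = B := by
  refine Subtype.ext (funext fun i => ?_)
  rw [← put_cut (hA i), ← put_cut (hB i)]
  exact congrArg (put n) (congrFun h i)

theorem meas_tt (n : ℕ) : Measurable (tt (m := m) n) := by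
  rw [measurable_pi_iff]
  intro i
  refine meas_of _ fun v => ?_
  exact meas_memF i (inc n v)

theorem ext_lin (S T : Submodule ℚ (V n)) (F H : V n →ₗ[ℚ] V n) (k : ℚ) (hkQ : k ≠ 0)
    (hFS : ∀ v ∈ S, F v ∈ T) (hHT : ∀ v ∈ T, H v ∈ S) (hHF : ∀ v ∈ S, H (F v) = k • v)
    (hFH : ∀ v ∈ T, F (H v) = k • v) :
    ∃ g : GQ n, (∀ v ∈ S, g v = F v) ∧ ∀ v ∈ T, k • g⁻¹ v = H v := by
  let φ1 : S →ₗ[ℚ] T := F.restrict hFS
  let φ2 : T →ₗ[ℚ] S := k⁻¹ • H.restrict hHT
  have hφ1 : ∀ s : S, ((φ1 s : T) : V n) = F s := fun _ => rfl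
  have hφ2 : ∀ t : T, ((φ2 t : S) : V n) = k⁻¹ • H t := fun _ => rfl
  let φ : S ≃ₗ[ℚ] T := LinearEquiv.ofLinearMap φ1 φ2 (by
    ext t : 1
    refine Subtype.ext ?_
    rw [LinearMap.comp_apply, hφ1, hφ2, map_smul, hFH _ t.2, smul_smul, inv_mul_cancel₀ hkQ,
      one_smul]
    rfl) (by
    ext s : 1
    refine Subtype.ext ?_
    rw [LinearMap.comp_apply, hφ2, hφ1, hHF _ s.2, smul_smul, inv_mul_cancel₀ hkQ,
      one_smul]
    rfl)
  obtain ⟨S', hS⟩ := Submodule.exists_isCompl S
  obtain ⟨T', hT⟩ := Submodule.exists_isCompl T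
  have hfr : Module.finrank ℚ S' = Module.finrank ℚ T' := by
    have e1 := Submodule.finrank_add_eq_of_isCompl hS
    have e2 := Submodule.finrank_add_eq_of_isCompl hT
    have e3 := φ.finrank_eq
    omega
  let ψ : S' ≃ₗ[ℚ] T' := LinearEquiv.ofFinrankEq S' T' hfr
  let g : GQ n := (Submodule.prodEquivOfIsCompl S S' hS).symm ≪≫ₗ (φ.prodCongr ψ) ≪≫ₗ
    (Submodule.prodEquivOfIsCompl T T' hT)
  have hg : ∀ s : S, g (s : V n) = F s := by
    intro s
    change (Submodule.prodEquivOfIsCompl T T' hT) ((φ.prodCongr ψ)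
      ((Submodule.prodEquivOfIsCompl S S' hS).symm (s : V n))) = F s
    rw [Submodule.prodEquivOfIsCompl_symm_apply_left]
    simp only [LinearEquiv.prodCongr_apply, map_zero, Submodule.coe_prodEquivOfIsCompl']
    rw [Submodule.coe_zero, add_zero]
    rfl
  refine ⟨g, fun v hv => hg ⟨v, hv⟩, fun v hv => ?_⟩
  have h3 : g (H v) = k • v := by rw [← hFH v hv]; exact hg ⟨H v, hHT v hv⟩
  have h4 : g⁻¹ (g (H v)) = H v := inv_apply g _
  rw [← h4, h3, map_smul]

theorem inc_smul (q : ℚ) (v : V n) : inc n (q • v) = q • inc n v := by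
  ext i
  rw [Finsupp.smul_apply, inc_apply, inc_apply]
  split_ifs
  · rfl
  · simp

/-- `inc` as a linear map -/
noncomputable def incL (n : ℕ) : V n →ₗ[ℚ] W where
  toFun := inc n
  map_add' := map_add (inc n)
  map_smul' := inc_smul

/-- `res` as a linear map -/
def resL (n : ℕ) : W →ₗ[ℚ] V n where
  toFun := res n
  map_add' _ _ := rfl
  map_smul' _ _ := rfl

theorem res_inc (v : V n) : res n (inc n v) = v := by
  funext i
  change inc n v (i : ℕ) = v i
  rw [inc_apply, dif_pos i.2]

theorem qisoT_iff {A B : FinTup m} (hA : BT n A) (hB : BT n B) :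
    QIsoT A B ↔ QIso (tt n A) (tt n B) := by
  constructor
  · rintro ⟨F, H, k, hk, h⟩
    have hkQ : (k : ℚ) ≠ 0 := by exact_mod_cast hk
    let S : Submodule ℚ (V n) := Submodule.span ℚ {v | ∃ i, v ∈ tt n A i}
    let T : Submodule ℚ (V n) := Submodule.span ℚ {v | ∃ i, v ∈ tt n B i}
    let F' : V n →ₗ[ℚ] V n := (resL n).comp (F.comp (incL n))
    let H' : V n →ₗ[ℚ] V n := (resL n).comp (H.comp (incL n))
    have hF1 : ∀ i, ∀ v ∈ tt n A i, F' v ∈ tt n B i ∧ inc n (F' v) = F (inc n v) := by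
      intro i v hv
      have h1 : F (inc n v) ∈ B.1 i := ((h i).1 _ hv).1
      have h2 : inc n (F' v) = F (inc n v) := inc_res (hB i _ h1)
      exact ⟨show inc n (F' v) ∈ B.1 i by rw [h2]; exact h1, h2⟩
    have hH1 : ∀ i, ∀ v ∈ tt n B i, H' v ∈ tt n A i ∧ inc n (H' v) = H (inc n v) := by
      intro i v hv
      have h1 : H (inc n v) ∈ A.1 i := ((h i).2 _ hv).1
      have h2 : inc n (H' v) = H (inc n v) := inc_res (hA i _ h1)
      exact ⟨show inc n (H' v) ∈ A.1 i by rw [h2]; exact h1, h2⟩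
    have hHF1 : ∀ i, ∀ v ∈ tt n A i, H' (F' v) = (k : ℚ) • v := by
      intro i v hv
      apply inc_inj n
      rw [(hH1 i _ (hF1 i v hv).1).2, (hF1 i v hv).2, ((h i).1 _ hv).2, inc_smul,
        Int.cast_smul_eq_zsmul]
    have hFH1 : ∀ i, ∀ v ∈ tt n B i, F' (H' v) = (k : ℚ) • v := by
      intro i v hv
      apply inc_inj n
      rw [(hF1 i _ (hH1 i v hv).1).2, (hH1 i v hv).2, ((h i).2 _ hv).2, inc_smul,
        Int.cast_smul_eq_zsmul]
    have hFS : S ≤ T.comap F' := by
      rw [Submodule.span_le]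
      rintro v ⟨i, hv⟩
      exact Submodule.subset_span ⟨i, (hF1 i v hv).1⟩
    have hHT : T ≤ S.comap H' := by
      rw [Submodule.span_le]
      rintro v ⟨i, hv⟩
      exact Submodule.subset_span ⟨i, (hH1 i v hv).1⟩
    have hHF : ∀ v ∈ S, H' (F' v) = (k : ℚ) • v := by
      intro v hv
      refine Submodule.span_induction (p := fun v _ => H' (F' v) = (k : ℚ) • v) ?_ ?_ ?_ ?_ hv
      · rintro a ⟨i, ha⟩
        exact hHF1 i a ha
      · simp
      · intro x y _ _ hx hy
        rw [map_add, map_add, hx, hy, smul_add]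
      · intro a x _ hx
        rw [map_smul, map_smul, hx, smul_comm]
    have hFH : ∀ v ∈ T, F' (H' v) = (k : ℚ) • v := by
      intro v hv
      refine Submodule.span_induction (p := fun v _ => F' (H' v) = (k : ℚ) • v) ?_ ?_ ?_ ?_ hv
      · rintro a ⟨i, ha⟩
        exact hFH1 i a ha
      · simp
      · intro x y _ _ hx hy
        rw [map_add, map_add, hx, hy, smul_add]
      · intro a x _ hx
        rw [map_smul, map_smul, hx, smul_comm]
    obtain ⟨g, h3, h4⟩ := ext_lin S T F' H' k hkQ (fun v hv => hFS hv) (fun v hv => hHT hv)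
      hHF hFH
    refine ⟨g, k, hk, fun i => ⟨fun v hv => ?_, fun v hv => ?_⟩⟩
    · rw [h3 v (Submodule.subset_span ⟨i, hv⟩)]
      exact AddSubgroup.zsmul_mem _ (hF1 i v hv).1 _
    · have h5 := h4 v (Submodule.subset_span ⟨i, hv⟩)
      rw [Int.cast_smul_eq_zsmul] at h5
      rw [h5]
      exact (hH1 i v hv).1
  · rintro ⟨g, k, hk, h⟩
    let F : W →ₗ[ℚ] W := (incL n).comp (((k : ℚ) • g.toLinearMap).comp (resL n))
    let H : W →ₗ[ℚ] W := (incL n).comp (((k : ℚ) • (g⁻¹).toLinearMap).comp (resL n))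
    have hF : ∀ v : V n, F (inc n v) = inc n (k • g v) := by
      intro v
      change inc n ((k : ℚ) • g (res n (inc n v))) = _
      rw [res_inc, Int.cast_smul_eq_zsmul]
    have hH : ∀ v : V n, H (inc n v) = inc n (k • g⁻¹ v) := by
      intro v
      change inc n ((k : ℚ) • g⁻¹ (res n (inc n v))) = _
      rw [res_inc, Int.cast_smul_eq_zsmul]
    refine ⟨F, H, k * k, mul_ne_zero hk hk, fun i => ⟨fun w hw => ?_, fun w hw => ?_⟩⟩
    · have h1 := inc_res (hA i w hw)
      have h2 : res n w ∈ tt n A i := by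
        change inc n (res n w) ∈ A.1 i
        rw [h1]; exact hw
      rw [← h1, hF, hH]
      refine ⟨(h i).1 _ h2, ?_⟩
      rw [map_zsmul g⁻¹, inv_apply, smul_smul, map_zsmul]
    · have h1 := inc_res (hB i w hw)
      have h2 : res n w ∈ tt n B i := by
        change inc n (res n w) ∈ B.1 i
        rw [h1]; exact hw
      rw [← h1, hH, hF]
      refine ⟨(h i).2 _ h2, ?_⟩
      rw [map_zsmul g, apply_inv, smul_smul, map_zsmul]

open Classical in
/-- the map on tuples contained in `ℚ ^ n` given by a map of tuples of subgroups of `ℚ ^ n` -/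
noncomputable def lt' (n : ℕ) (T : Tup n m → Tup n m) (A : FinTup m) : FinTup m :=
  if BT n A then ⟨fun i => put n (T (tt n A) i), n, fun _ => Bd_put n _⟩ else A

theorem lt_pos (T : Tup n m → Tup n m) {A : FinTup m} (h : BT n A) :
    lt' n T A = ⟨fun i => put n (T (tt n A) i), n, fun _ => Bd_put n _⟩ := if_pos h

theorem lt_neg (T : Tup n m → Tup n m) {A : FinTup m} (h : ¬ BT n A) :
    lt' n T A = A := if_neg h

theorem tt_lt (T : Tup n m → Tup n m) {A : FinTup m} (h : BT n A) :
    tt n (lt' n T A) = T (tt n A) := by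
  funext i
  rw [lt_pos T h]
  exact cut_put n _

theorem BT_lt (T : Tup n m → Tup n m) {A : FinTup m} (h : BT n A) : BT n (lt' n T A) := by
  rw [lt_pos T h]
  exact fun i => Bd_put n _

theorem meas_lt {T : Tup n m → Tup n m} (hT : Measurable T) : Measurable (lt' n T) := by
  classical
  have : lt' n T = fun A : FinTup m => if BT n A then
      (⟨fun i => put n (T (tt n A) i), n, fun _ => Bd_put n _⟩ : FinTup m) else A := by
    funext A
    unfold lt'
    rfl
  rw [this]
  refine Measurable.ite (meas_BT n) ?_ measurable_id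
  refine Measurable.subtype_mk ?_
  rw [measurable_pi_iff]
  intro i
  refine measW_of _ fun w => ?_
  simp only [mem_put]
  exact Measurable.exists fun v => ((meas_mem n v).comp ((measurable_pi_apply i).comp
    (hT.comp (meas_tt n)))).and measurable_const

/-- the maps enumerating the classes -/
noncomputable def enT (j : Σ n, GQ n × (Fin m → ℤ × Finset (V n))) (A : FinTup m) : FinTup m :=
  lt' j.1 (en j.2) A

theorem exists_enT {A B : FinTup m} (h : QIsoT A B) : ∃ j, enT j A = B := by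
  obtain ⟨n, hA, hB⟩ := exists_BT A B
  obtain ⟨j, hj⟩ := (qiso_iff _ _).1 ((qisoT_iff hA hB).1 h)
  refine ⟨⟨n, j⟩, tt_inj (n := n) (BT_lt _ hA) hB ?_⟩
  change tt n (lt' n (en j) A) = tt n B
  rw [tt_lt _ hA]
  exact hj

theorem meas_enT (j : Σ n, GQ n × (Fin m → ℤ × Finset (V n))) : Measurable (enT (m := m) j) :=
  meas_lt (meas_en j.2)

theorem essFree_weak (m : ℕ) (Z : Type) [MeasurableSpace Z] [StandardBorelSpace Z]
    (E : Z → Z → Prop) (hE : Equivalence E) (hEm : MeasurableSet {p : Z × Z | E p.1 p.2})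
    (f : Z → FinTup m) (c : Z → ℕ) (hf : Measurable f) (hc : Measurable c)
    (hfE : ∀ x y, E x y → QIsoT (f x) (f y))
    (hinj : ∀ x y, E x y → f x = f y → c x = c y → x = y) : EssFree E := by
  classical
  have hcG : ∀ n, Countable (GQ n) := fun n => (Pool.Agent.H861R3.EFStd.t n).1
  -- the relation is enumerated by Borel maps, by the theorem of Lusin and Souslin
  let S : ((Σ n, GQ n × (Fin m → ℤ × Finset (V n))) × ℕ) → Set (Z × Z) := fun j =>
    {p | E p.1 p.2} ∩ {p | (f p.2, c p.2) = (enT j.1 (f p.1), j.2)}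
  have hS : ∀ j, MeasurableSet (S j) := fun j => hEm.inter (measurableSet_eq_fun
    ((hf.comp measurable_snd).prodMk (hc.comp measurable_snd))
    (((meas_enT j.1).comp (hf.comp measurable_fst)).prodMk measurable_const))
  have hw : ∀ j, ∃ w : Z → Z, Measurable w ∧ ∀ s : S j, w s.1.1 = s.1.2 := by
    intro j
    have : StandardBorelSpace (S j) := (hS j).standardBorel
    have hemb : MeasurableEmbedding (fun s : S j => s.1.1) := by
      refine (measurable_fst.comp measurable_subtype_coe).measurableEmbedding ?_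
      rintro ⟨⟨x, y⟩, h1, h2⟩ ⟨⟨x', y'⟩, h3, h4⟩ hxx
      have hxx : x = x' := hxx
      subst hxx
      have h1 : E x y := h1
      have h3 : E x y' := h3
      have h2 : (f y, c y) = (enT j.1 (f x), j.2) := h2
      have h4 : (f y', c y') = (enT j.1 (f x), j.2) := h4
      rw [← h4] at h2
      have h5 : y = y' := hinj y y' (hE.trans (hE.symm h1) h3) (congrArg Prod.fst h2)
        (congrArg Prod.snd h2)
      subst h5
      rfl
    obtain ⟨w, hw1, hw2⟩ := hemb.exists_measurable_extend
      (measurable_snd.comp measurable_subtype_coe : Measurable (fun s : S j => s.1.2))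
      (fun z => ⟨z⟩)
    exact ⟨w, hw1, fun s => congrFun hw2 s⟩
  choose w hw1 hw2 using hw
  have hEw : ∀ j, MeasurableSet {z | E z (w j z)} := fun j =>
    (measurable_id.prodMk (hw1 j)) hEm
  obtain ⟨K, _, _, _, hact, hK⟩ := feldman_moore
    (fun (j : (Σ n, GQ n × (Fin m → ℤ × Finset (V n))) × ℕ) (z : Z) =>
      if E z (w j z) then w j z else z)
    (fun j => Measurable.ite (hEw j) (hw1 j) measurable_id) E (by
      intro x y
      constructor
      · intro h
        obtain ⟨j, hj⟩ := exists_enT (hfE x y h)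
        have h1 : w (j, c y) x = y := hw2 (j, c y) ⟨(x, y), h, by
          change (f y, c y) = (enT j (f x), c y)
          rw [hj]⟩
        refine ⟨(j, c y), ?_⟩
        simp only [h1]
        rw [if_pos h]
      · rintro ⟨j, rfl⟩
        split_ifs with h
        · exact h
        · exact hE.refl x) hE.refl (fun _ _ => hE.symm) (fun _ _ _ => hE.trans)
  have h := essFree_cov (K := K) hact (fun n => {z : Z | BT n (f z)}) (fun n => hf (meas_BT n))
    (fun n => n) (fun _ => m) (fun n z => tt n (f z)) (fun n => (meas_tt n).comp hf)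
    (fun _ => c) (fun _ => hc)
    (fun n k z hz hkz => (qisoT_iff hz hkz).1 (hfE _ _ ((hK _ _).2 ⟨k, rfl⟩)))
    (fun n k z hz hkz h1 h2 => hinj _ _ (hE.symm ((hK _ _).2 ⟨k, rfl⟩)) (tt_inj hkz hz h1) h2)
    (fun z => by
      obtain ⟨n, hn⟩ := (f z).2
      exact ⟨n, 1, by rw [one_smul]; exact hn⟩) Set.univ MeasurableSet.univ
  refine essFree_transfer (MeasurableEquiv.Set.univ Z) _ _ ?_ h
  intro x y
  exact (hK _ _).symm

end Pool.Agent.Y618.EF
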